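import Pool.Agent.H142.RT.Base

open MvPolynomial

namespace Pool.Agent.H142.RT

section A1
variable {ι : Type*} [Fintype ι] (s : ι → Bool) (K : ι → ℕ → Pol) (n : ι → ℕ) (hK : ∀ i, Pre (n i) (K i))
include hK
theorem node_coh (L M : ℕ) (h : L ≤ M) : res (Set.Iio L) (node s K M) = node s K L := by
  unfold node
  rw [map_sum]
  symm
  refine (Finset.sum_congr rfl ?_).trans (Finset.sum_subset (Finset.range_mono h) ?_)
  · intro l hl
    have hl' := Finset.mem_range.mp hl
    rw [map_mul, map_prod, res_X_mem (show l ∈ Set.Iio L from hl')]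
    congr 1
    refine Finset.prod_congr rfl fun i _ => ?_
    exact ((hK i).supp_of_le ((lv_le (s i) l).trans hl')).symm
  · intro l _ hl
    have hl' : l ∉ Set.Iio L := fun h => hl (Finset.mem_range.mpr h)
    rw [map_mul, res_X_notMem hl', zero_mul]

theorem node_hom (L : ℕ) : (node s K L).IsHomogeneous (1 + ∑ i, n i) := by
  unfold node
  refine IsHomogeneous.sum _ _ _ fun l _ => ?_
  refine (isHomogeneous_X ℚ l).mul ?_
  exact IsHomogeneous.prod _ _ _ fun i _ => (hK i).hom _

theorem node_canc (R : Type) [CommRing R] [Algebra ℚ R] (v : ℕ → R) (i L : ℕ) (hi : i + 2 ≤ L)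
    (hv : v (i + 1) = - v i) : aeval v (node s K L) = aeval (zap i v) (node s K L) := by
  unfold node
  rw [map_sum, map_sum, ← sub_eq_zero, ← Finset.sum_sub_distrib]
  rw [Finset.sum_eq_add i (i + 1) (by omega) ?_ ?_ ?_]
  · have z1 : zap i v i = 0 := by simp [zap]
    have z2 : zap i v (i + 1) = 0 := by simp [zap]
    simp only [map_mul, aeval_X, z1, z2, zero_mul, sub_zero, map_prod, hv]
    have key : ∀ j, aeval v (K j (lv (s j) i)) = aeval v (K j (lv (s j) (i + 1))) := by
      intro j
      rcases lv_cases (s j) i with h | h
      · rw [lv_succ_eq' h, h, (hK j).canc R v i (i + 2) le_rfl hv]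
        have e1 := (hK j).coh i (i + 2) (by omega)
        have e2 := (hK j).supp (i + 2)
        rw [← e1, aeval_res]
        conv_rhs => rw [← e2, aeval_res]
        congr 2
        funext j
        simp only [Set.indicator, Set.mem_Iio, zap]
        by_cases h1 : j < i
        · have h2 : j < i + 2 := by omega
          have h3 : ¬ (j = i ∨ j = i + 1) := by omega
          simp [h1, h2, h3]
        · by_cases h2 : j < i + 2
          · have h3 : (j = i ∨ j = i + 1) := by omega
            simp [h1, h2, h3]
          · simp [h1, h2]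
      · rw [lv_succ_eq h, h]
    rw [Finset.prod_congr rfl fun j _ => key j]
    ring
  · intro l hl hne
    have hl' := Finset.mem_range.mp hl
    have z : zap i v l = v l := by
      have : ¬ (l = i ∨ l = i + 1) := by omega
      simp [zap, this]
    rw [sub_eq_zero, map_mul, map_mul, aeval_X, aeval_X, z, map_prod, map_prod]
    congr 1
    refine Finset.prod_congr rfl fun j _ => ?_
    rcases lt_or_ge l i with h | h
    · have e2 := (hK j).supp (lv (s j) l)
      rw [← e2, aeval_res, aeval_res]
      congr 2
      funext m
      simp only [Set.indicator, Set.mem_Iio, zap]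
      by_cases h1 : m < lv (s j) l
      · have := lv_le (s j) l
        have h3 : ¬ (m = i ∨ m = i + 1) := by omega
        simp [h1, h3]
      · simp [h1]
    · refine (hK j).canc R v i _ ?_ hv
      have := le_lv (s j) l
      omega
  · intro h; exact absurd (Finset.mem_range.mpr (by omega)) h
  · intro h; exact absurd (Finset.mem_range.mpr (by omega)) h
end A1

end Pool.Agent.H142.RT
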