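import Pool.Agent.H142.RT.Base

open MvPolynomial

namespace Pool.Agent.H142.RT

theorem node_empty_A10 {ι : Type*} [Fintype ι] [IsEmpty ι] (s : ι → Bool) (K : ι → ℕ → Pol)
    (L : ℕ) : node s K L = ∑ l ∈ Finset.range L, X l := by
  unfold node
  refine Finset.sum_congr rfl (fun l _ => ?_)
  rw [Finset.prod_of_isEmpty, mul_one]

theorem coeff_A10 {L : ℕ} (hL : 1 ≤ L) :
    coeff (Finsupp.single 0 1) (∑ l ∈ Finset.range L, X l : Pol) = 1 := by
  rw [coeff_sum, Finset.sum_eq_single 0]
  · simp
  · intro b _ hb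
    rw [coeff_X, if_neg]
    intro h
    exact hb ((Finsupp.single_left_injective one_ne_zero) h)
  · intro h
    exact absurd (Finset.mem_range.2 hL) h

theorem hom_A10 (L : ℕ) : (∑ l ∈ Finset.range L, X l : Pol).IsHomogeneous 1 := by
  apply IsHomogeneous.sum
  intro l _
  exact isHomogeneous_X _ _

theorem totalDegree_A10 {L : ℕ} (hL : 1 ≤ L) :
    (∑ l ∈ Finset.range L, X l : Pol).totalDegree = 1 := by
  have h0 : (∑ l ∈ Finset.range L, X l : Pol) ≠ 0 := by
    intro h
    have := coeff_A10 hL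
    rw [h, coeff_zero] at this
    exact zero_ne_one this
  exact (hom_A10 L).totalDegree h0

theorem unit_of_totalDegree_A10 {a : Pol} (ha : a ≠ 0) (h : a.totalDegree = 0) : IsUnit a := by
  rw [isUnit_iff_exists_C]
  have h1 := (totalDegree_eq_zero_iff_eq_C).1 h
  refine ⟨coeff 0 a, ?_, h1⟩
  intro h2
  apply ha
  rw [h1, h2, C_0]

theorem leaf_irr {ι : Type*} [Fintype ι] [IsEmpty ι] (s : ι → Bool) (K : ι → ℕ → Pol) {L : ℕ} (hL : 1 ≤ L) :
    Irreducible (node s K L) := by
  rw [node_empty_A10]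
  have hd := totalDegree_A10 hL
  have h0 : (∑ l ∈ Finset.range L, X l : Pol) ≠ 0 := by
    intro h
    rw [h, totalDegree_zero] at hd
    exact zero_ne_one hd
  constructor
  · intro hu
    obtain ⟨c, _, hc⟩ := isUnit_iff_exists_C.1 hu
    rw [hc, totalDegree_C] at hd
    exact zero_ne_one hd
  · intro a b hab
    have ha : a ≠ 0 := by
      rintro rfl
      exact h0 (by rw [hab, zero_mul])
    have hb : b ≠ 0 := by
      rintro rfl
      exact h0 (by rw [hab, mul_zero])
    rw [hab, totalDegree_mul_of_isDomain ha hb] at hd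
    have : a.totalDegree = 0 ∨ b.totalDegree = 0 := by omega
    rcases this with h | h
    · left; exact unit_of_totalDegree_A10 ha h
    · right; exact unit_of_totalDegree_A10 hb h

end Pool.Agent.H142.RT
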