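import Pool.Agent.H142.RT.Base
import Pool.Agent.H142.RT.A1

open MvPolynomial

namespace Pool.Agent.H142.RT



theorem assoc_C_A11 {a b : Pol} (h : Associated a b) : ∃ c : ℚ, c ≠ 0 ∧ a * C c = b := by
  obtain ⟨u, hu⟩ := h
  obtain ⟨c, hc, h1⟩ := isUnit_iff_exists_C.1 u.isUnit
  exact ⟨c, hc, by rw [← h1, hu]⟩

theorem assoc_of_C_A11 {a b : Pol} {c : ℚ} (hc : c ≠ 0) (h : a * C c = b) : Associated a b := by
  obtain ⟨u, hu⟩ := isUnit_iff_exists_C.2 ⟨c, hc, rfl⟩
  exact ⟨u, by rw [hu, h]⟩

theorem assoc_res_A11 {a b : Pol} (S : Set ℕ) (h : Associated a b) :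
    Associated (res S a) (res S b) := by
  obtain ⟨c, hc, h⟩ := assoc_C_A11 h
  refine assoc_of_C_A11 hc ?_
  rw [← h, map_mul, res_C]

theorem assoc_mono_A11 {n m : ℕ} {K J : ℕ → Pol} (hK : Pre n K) (hJ : Pre m J) {L M : ℕ}
    (hLM : L ≤ M) (h : Associated (K M) (J M)) : Associated (K L) (J L) := by
  have := assoc_res_A11 (Set.Iio L) h
  rwa [hK.coh L M hLM, hJ.coh L M hLM] at this

theorem assoc_fixed_A11 {a b : Pol} (S : Set ℕ) (h : Associated a b) (hb : res S b = b) :
    res S a = a := by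
  obtain ⟨c, hc, h⟩ := assoc_C_A11 h
  rw [← h, map_mul, res_C] at hb
  have hc' : (C c : Pol) ≠ 0 := by simpa using hc
  exact mul_right_cancel₀ hc' hb

theorem equiv_of_map_eq_A11 {ι κ γ : Type*} [Fintype ι] [Fintype κ] (F : ι → γ) (G : κ → γ)
    (h : (Finset.univ : Finset ι).val.map F = (Finset.univ : Finset κ).val.map G) :
    ∃ e : ι ≃ κ, ∀ i, G (e i) = F i := by
  classical
  have hc : ∀ c : γ, Nonempty ({i // F i = c} ≃ {j // G j = c}) := by
    intro c
    rw [← Fintype.card_eq]
    have h1 := congrArg (Multiset.count c) h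
    rw [Multiset.count_map, Multiset.count_map] at h1
    rw [Fintype.card_subtype, Fintype.card_subtype]
    have e1 : (Finset.univ.filter fun i => F i = c).card
        = Multiset.card ((Finset.univ : Finset ι).val.filter fun i => c = F i) := by
      rw [Finset.card_def, Finset.filter_val]
      congr 1
      exact Multiset.filter_congr fun x _ => eq_comm
    have e2 : (Finset.univ.filter fun i => G i = c).card
        = Multiset.card ((Finset.univ : Finset κ).val.filter fun i => c = G i) := by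
      rw [Finset.card_def, Finset.filter_val]
      congr 1
      exact Multiset.filter_congr fun x _ => eq_comm
    rw [e1, e2, h1]
  have E : ∀ c : γ, {i // F i = c} ≃ {j // G j = c} := fun c => (hc c).some
  refine ⟨(Equiv.sigmaFiberEquiv F).symm.trans ((Equiv.sigmaCongrRight E).trans
    (Equiv.sigmaFiberEquiv G)), fun i => ?_⟩
  exact (E (F i) ⟨i, rfl⟩).2

theorem prod_assoc_A11 {ι κ : Type*} [Fintype ι] [Fintype κ] (s : ι → Bool) (K : ι → ℕ → Pol)
    (n : ι → ℕ) (hK : ∀ i, Good (n i) (K i)) (t : κ → Bool) (J : κ → ℕ → Pol) (m : κ → ℕ)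
    (hJ : ∀ j, Good (m j) (J j)) (h : ∀ L, Associated (node s K L) (node t J L)) (L : ℕ) :
    Associated (∏ i, K i (lv (s i) L)) (∏ j, J j (lv (t j) L)) := by
  obtain ⟨c, hc, h1⟩ := assoc_C_A11 (h (L + 1))
  have h2 := congrArg (res (Set.Iio L)) h1
  rw [map_mul, res_C, node_coh s K n (fun i => (hK i).toPre) L (L + 1) (Nat.le_succ L),
    node_coh t J m (fun i => (hJ i).toPre) L (L + 1) (Nat.le_succ L)] at h2
  rw [node_succ, node_succ, add_mul, h2] at h1
  have h3 := add_left_cancel h1
  rw [mul_assoc] at h3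
  exact assoc_of_C_A11 hc (mul_left_cancel₀ (X_ne_zero L) h3)

theorem recover {ι κ : Type*} [Fintype ι] [Fintype κ] (s : ι → Bool) (K : ι → ℕ → Pol) (n : ι → ℕ)
    (hK : ∀ i, Good (n i) (K i)) (t : κ → Bool) (J : κ → ℕ → Pol) (m : κ → ℕ) (hJ : ∀ j, Good (m j) (J j))
    (h : ∀ L, Associated (node s K L) (node t J L)) :
    ∃ e : ι ≃ κ, (∀ i, t (e i) = s i) ∧ ∀ i L, Associated (K i L) (J (e i) L) := by
  classical
  choose L1 hL1 using fun i => (hK i).irr
  choose L2 hL2 using fun j => (hJ j).irr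
  have h3 : ∀ p : ι × κ, ∃ P : ℕ, ∀ L, P ≤ L → Associated (K p.1 L) (J p.2 L) →
      ∀ M, Associated (K p.1 M) (J p.2 M) := by
    intro p
    by_cases hp : ∀ M, Associated (K p.1 M) (J p.2 M)
    · exact ⟨0, fun _ _ _ => hp⟩
    · push Not at hp
      obtain ⟨M, hM⟩ := hp
      exact ⟨M, fun L hL h => absurd (assoc_mono_A11 (hK p.1).toPre (hJ p.2).toPre hL h) hM⟩
  choose P hP using h3
  obtain ⟨B1, hB1⟩ := Finset.exists_le (Finset.univ.image L1)
  obtain ⟨B2, hB2⟩ := Finset.exists_le (Finset.univ.image L2)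
  obtain ⟨B3, hB3⟩ := Finset.exists_le (Finset.univ.image n)
  obtain ⟨B4, hB4⟩ := Finset.exists_le (Finset.univ.image m)
  obtain ⟨B5, hB5⟩ := Finset.exists_le (Finset.univ.image P)
  simp only [Finset.mem_image, Finset.mem_univ, true_and, forall_exists_index,
    forall_apply_eq_imp_iff] at hB1 hB2 hB3 hB4 hB5
  set L := 2 * (B1 + B2 + B3 + B4 + B5) with hL
  have hLeven : Even L := ⟨B1 + B2 + B3 + B4 + B5, by omega⟩
  have hlt : lv true L = L + 1 := by simp [lv, hLeven]
  have hlf : lv false L = L := by simp [lv, hLeven]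
  have hKi : ∀ i, Irreducible (K i (lv (s i) L)) := fun i =>
    hL1 i _ (by have := hB1 i; have := le_lv (s i) L; omega)
  have hJj : ∀ j, Irreducible (J j (lv (t j) L)) := fun j =>
    hL2 j _ (by have := hB2 j; have := le_lv (t j) L; omega)
  have hprod := prod_assoc_A11 s K n hK t J m hJ h L
  have hrel : Multiset.Rel Associated ((Finset.univ : Finset ι).val.map fun i => K i (lv (s i) L))
      ((Finset.univ : Finset κ).val.map fun j => J j (lv (t j) L)) := by
    apply UniqueFactorizationMonoid.factors_unique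
    · intro x hx
      obtain ⟨i, _, rfl⟩ := Multiset.mem_map.1 hx
      exact hKi i
    · intro x hx
      obtain ⟨i, _, rfl⟩ := Multiset.mem_map.1 hx
      exact hJj i
    · exact hprod
  have hmap : (Finset.univ : Finset ι).val.map (fun i => Associates.mk (K i (lv (s i) L))) =
      (Finset.univ : Finset κ).val.map (fun j => Associates.mk (J j (lv (t j) L))) := by
    have h5 : Multiset.Rel Eq
        (((Finset.univ : Finset ι).val.map fun i => K i (lv (s i) L)).map Associates.mk)
        (((Finset.univ : Finset κ).val.map fun j => J j (lv (t j) L)).map Associates.mk) := by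
      rw [Multiset.rel_map]
      exact hrel.mono fun a _ b _ hab => Associates.mk_eq_mk_iff_associated.2 hab
    rw [Multiset.rel_eq, Multiset.map_map, Multiset.map_map] at h5
    exact h5
  obtain ⟨e, he⟩ := equiv_of_map_eq_A11 _ _ hmap
  have he' : ∀ i, Associated (K i (lv (s i) L)) (J (e i) (lv (t (e i)) L)) := fun i =>
    (Associates.mk_eq_mk_iff_associated.1 (he i)).symm
  have hst : ∀ i, t (e i) = s i := by
    intro i
    have h6 := he' i
    rcases hs : s i with _ | _ <;> rcases ht : t (e i) with _ | _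
    · rfl
    · rw [hs, ht, hlt, hlf] at h6
      exfalso
      have h7 := assoc_fixed_A11 (Set.Iio L) h6.symm ((hK i).toPre.supp L)
      rw [(hJ (e i)).toPre.coh L (L + 1) (Nat.le_succ L)] at h7
      exact (hJ (e i)).toPre.mono L (by have := hB4 (e i); omega) h7.symm
    · rw [hs, ht, hlt, hlf] at h6
      exfalso
      have h7 := assoc_fixed_A11 (Set.Iio L) h6 ((hJ (e i)).toPre.supp L)
      rw [(hK i).toPre.coh L (L + 1) (Nat.le_succ L)] at h7
      exact (hK i).toPre.mono L (by have := hB3 i; omega) h7.symm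
    · rfl
  refine ⟨e, hst, fun i => ?_⟩
  have h8 := he' i
  rw [hst i] at h8
  have h9 := assoc_mono_A11 (hK i).toPre (hJ (e i)).toPre (le_lv (s i) L) h8
  exact hP (i, e i) L (by have := hB5 (i, e i); omega) h9

end Pool.Agent.H142.RT
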