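import Pool.Agent.H142.RT.Base

open MvPolynomial

namespace Pool.Agent.H142.RT

section A2
variable {ι : Type*} [Fintype ι] (s : ι → Bool) (K : ι → ℕ → Pol) (n : ι → ℕ) (hK : ∀ i, Pre (n i) (K i))

theorem aeval_node_A2 (v : ℕ → ℚ) (L : ℕ) :
    aeval v (node s K L) = ∑ l ∈ Finset.range L, v l * ∏ i, aeval v (K i (lv (s i) l)) := by
  unfold node
  rw [map_sum]
  refine Finset.sum_congr rfl fun l _ => ?_
  rw [map_mul, map_prod, aeval_X]

theorem ind_nonneg_A2 (S : Set ℕ) (l : ℕ) : 0 ≤ S.indicator (fun _ => (1 : ℚ)) l :=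
  Set.indicator_nonneg (fun _ _ => zero_le_one) l

include hK
theorem term_nonneg_A2 (S : Set ℕ) (l : ℕ) :
    0 ≤ S.indicator (fun _ => (1 : ℚ)) l *
      ∏ i, aeval (S.indicator (fun _ => (1 : ℚ))) (K i (lv (s i) l)) :=
  mul_nonneg (ind_nonneg_A2 S l) (Finset.prod_nonneg fun i _ => (hK i).nonneg S _)

theorem node_nonneg (S : Set ℕ) (L : ℕ) : 0 ≤ aeval (S.indicator (fun _ => (1 : ℚ))) (node s K L) := by
  rw [aeval_node_A2]
  exact Finset.sum_nonneg fun l _ => term_nonneg_A2 s K n hK S l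

theorem node_pos (S : Finset ℕ) (L : ℕ) (hS : 1 + ∑ i, n i ≤ (S.filter (· < L)).card) :
    0 < aeval ((S : Set ℕ).indicator (fun _ => (1 : ℚ))) (node s K L) := by
  classical
  rw [aeval_node_A2]
  set T := S.filter (· < L) with hT
  have hne : T.Nonempty := by
    rw [← Finset.card_pos]
    omega
  set m := T.max' hne with hm
  have hmT : m ∈ T := T.max'_mem hne
  have hmS : m ∈ S := (Finset.mem_filter.1 hmT).1
  have hmL : m < L := (Finset.mem_filter.1 hmT).2
  refine Finset.sum_pos' (fun l _ => term_nonneg_A2 s K n hK S l)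
    ⟨m, Finset.mem_range.2 hmL, ?_⟩
  refine mul_pos ?_ (Finset.prod_pos fun i _ => (hK i).pos S _ ?_)
  · rw [Set.indicator_of_mem (by exact_mod_cast hmS)]
    exact one_pos
  · have h1 : T.erase m ⊆ S.filter (· < lv (s i) m) := by
      intro x hx
      have hx1 := Finset.mem_of_mem_erase hx
      have hx2 := Finset.ne_of_mem_erase hx
      have hx3 : x ≤ m := T.le_max' x hx1
      have hx4 := le_lv (s i) m
      rw [Finset.mem_filter]
      refine ⟨(Finset.mem_filter.1 hx1).1, ?_⟩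
      omega
    have h2 := Finset.card_le_card h1
    rw [Finset.card_erase_of_mem hmT] at h2
    have h3 : n i ≤ ∑ i, n i := Finset.single_le_sum (fun _ _ => Nat.zero_le _) (Finset.mem_univ i)
    omega

theorem node_mono (L : ℕ) (hL : 1 + ∑ i, n i ≤ L + 1) : node s K (L + 1) ≠ node s K L := by
  rw [node_succ]
  intro h
  have h1 : X L * ∏ i, K i (lv (s i) L) = (0 : Pol) := by
    rwa [add_eq_left] at h
  rcases mul_eq_zero.1 h1 with h2 | h2
  · exact X_ne_zero L h2
  · obtain ⟨i, _, hi⟩ := Finset.prod_eq_zero_iff.1 h2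
    have h3 : n i ≤ ∑ i, n i := Finset.single_le_sum (fun _ _ => Nat.zero_le _) (Finset.mem_univ i)
    have h4 := le_lv (s i) L
    exact (hK i).ne_zero (by omega) hi
end A2

end Pool.Agent.H142.RT
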