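import Pool.Agent.H142.RT.Base

open MvPolynomial

namespace Pool.Agent.H142.RT

theorem const_of_mul {D : Type*} [CommRing D] [IsDomain D] {a b : Polynomial D} {c : D} (hc : c ≠ 0)
    (h : a * b = Polynomial.C c) : ∃ d, b = Polynomial.C d := by
  have h0 : a * b ≠ 0 := by
    rw [h]
    exact Polynomial.C_ne_zero.2 hc
  have ha : a ≠ 0 := left_ne_zero_of_mul h0
  have hb : b ≠ 0 := right_ne_zero_of_mul h0
  have h1 := Polynomial.natDegree_mul ha hb
  rw [h, Polynomial.natDegree_C] at h1
  exact ⟨b.coeff 0, Polynomial.eq_C_of_natDegree_eq_zero (by omega)⟩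

open Classical in
/-- the variables outside `S` are multiplied by a new variable -/
noncomputable def phi_A3 (S : Set ℕ) : Pol →ₐ[ℚ] Polynomial Pol :=
  aeval fun j => if j ∈ S then Polynomial.C (X j) else Polynomial.X * Polynomial.C (X j)

theorem phi_C_A3 (S : Set ℕ) (r : ℚ) : phi_A3 S (C r) = Polynomial.C (C r) := by
  unfold phi_A3
  rw [aeval_C]
  rfl

theorem phi_X_mem_A3 {S : Set ℕ} {j : ℕ} (h : j ∈ S) : phi_A3 S (X j) = Polynomial.C (X j) := by
  unfold phi_A3
  rw [aeval_X, if_pos h]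

theorem phi_X_notMem_A3 {S : Set ℕ} {j : ℕ} (h : j ∉ S) :
    phi_A3 S (X j) = Polynomial.X * Polynomial.C (X j) := by
  unfold phi_A3
  rw [aeval_X, if_neg h]

theorem phi_eval_one_A3 (S : Set ℕ) (q : Pol) : (phi_A3 S q).eval 1 = q := by
  have h : (Polynomial.evalRingHom (1 : Pol)).comp (phi_A3 S).toRingHom = RingHom.id Pol := by
    apply MvPolynomial.ringHom_ext
    · intro r
      show (phi_A3 S (C r)).eval 1 = C r
      rw [phi_C_A3, Polynomial.eval_C]
    · intro j
      show (phi_A3 S (X j)).eval 1 = X j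
      by_cases hj : j ∈ S
      · rw [phi_X_mem_A3 hj, Polynomial.eval_C]
      · rw [phi_X_notMem_A3 hj]
        simp
  exact DFunLike.congr_fun h q

theorem phi_eval_zero_A3 (S : Set ℕ) (q : Pol) : (phi_A3 S q).eval 0 = res S q := by
  have h : (Polynomial.evalRingHom (0 : Pol)).comp (phi_A3 S).toRingHom =
      (res S).toRingHom := by
    apply MvPolynomial.ringHom_ext
    · intro r
      show (phi_A3 S (C r)).eval 0 = res S (C r)
      rw [phi_C_A3, Polynomial.eval_C, res_C]
    · intro j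
      show (phi_A3 S (X j)).eval 0 = res S (X j)
      by_cases hj : j ∈ S
      · rw [phi_X_mem_A3 hj, Polynomial.eval_C, res_X_mem hj]
      · rw [phi_X_notMem_A3 hj, res_X_notMem hj]
        simp
  exact DFunLike.congr_fun h q

theorem phi_res_A3 (S : Set ℕ) (q : Pol) : phi_A3 S (res S q) = Polynomial.C (res S q) := by
  have h : ((phi_A3 S).toRingHom).comp (res S).toRingHom =
      (Polynomial.C : Pol →+* Polynomial Pol).comp (res S).toRingHom := by
    apply MvPolynomial.ringHom_ext
    · intro r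
      show phi_A3 S (res S (C r)) = Polynomial.C (res S (C r))
      rw [res_C, phi_C_A3]
    · intro j
      show phi_A3 S (res S (X j)) = Polynomial.C (res S (X j))
      by_cases hj : j ∈ S
      · rw [res_X_mem hj, phi_X_mem_A3 hj]
      · rw [res_X_notMem hj, map_zero, map_zero]
  exact DFunLike.congr_fun h q

theorem fac_free {S : Set ℕ} {a q : Pol} (ha : a ≠ 0) (hS : res S a = a) (hq : q ∣ a) : res S q = q := by
  obtain ⟨q', hq'⟩ := hq
  have h1 : phi_A3 S a = Polynomial.C a := by
    have := phi_res_A3 S a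
    rwa [hS] at this
  have h2 : phi_A3 S q' * phi_A3 S q = Polynomial.C a := by
    rw [← map_mul, mul_comm q' q, ← hq', h1]
  obtain ⟨d, hd⟩ := const_of_mul ha h2
  have h3 := phi_eval_one_A3 S q
  have h4 := phi_eval_zero_A3 S q
  rw [hd, Polynomial.eval_C] at h3 h4
  rw [← h4, h3]

theorem phi_empty_hom_A3 {n : ℕ} {a : Pol} (hn : a.IsHomogeneous n) :
    phi_A3 ∅ a = Polynomial.X ^ n * Polynomial.C a := by
  have hm : ∀ (m : ℕ →₀ ℕ) (r : ℚ), phi_A3 ∅ (monomial m r) =
      Polynomial.X ^ m.degree * Polynomial.C (monomial m r) := by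
    intro m r
    rw [MvPolynomial.monomial_eq, map_mul, phi_C_A3, map_finsuppProd]
    have h1 : (m.prod fun i k => phi_A3 ∅ (X i ^ k)) =
        Polynomial.X ^ m.degree * Polynomial.C (m.prod fun i k => (X i : Pol) ^ k) := by
      have hdeg : m.degree = ∑ i ∈ m.support, m i := rfl
      unfold Finsupp.prod
      rw [map_prod, hdeg, ← Finset.prod_pow_eq_pow_sum, ← Finset.prod_mul_distrib]
      refine Finset.prod_congr rfl fun i _ => ?_
      show phi_A3 ∅ (X i ^ m i) = Polynomial.X ^ m i * Polynomial.C ((X i : Pol) ^ m i)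
      rw [map_pow, phi_X_notMem_A3 (Set.notMem_empty i), mul_pow, Polynomial.C_pow]
    rw [h1, map_mul]
    ring
  have h2 : ∀ m ∈ a.support, phi_A3 ∅ (monomial m (coeff m a)) =
      Polynomial.X ^ n * Polynomial.C (monomial m (coeff m a)) := by
    intro m hma
    rw [hm]
    have h3 : m.degree = n := by
      have := hn (MvPolynomial.mem_support_iff.1 hma)
      rwa [Finsupp.degree_eq_weight_one]
    rw [h3]
  calc phi_A3 ∅ a = phi_A3 ∅ (∑ m ∈ a.support, monomial m (coeff m a)) := by
        rw [MvPolynomial.support_sum_monomial_coeff]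
    _ = ∑ m ∈ a.support, Polynomial.X ^ n * Polynomial.C (monomial m (coeff m a)) := by
        rw [map_sum]
        exact Finset.sum_congr rfl h2
    _ = Polynomial.X ^ n * Polynomial.C a := by
        rw [← Finset.mul_sum, ← map_sum, MvPolynomial.support_sum_monomial_coeff]

theorem fac_unit {n : ℕ} {a q : Pol} (ha : a ≠ 0) (hn : a.IsHomogeneous n) (hq : q ∣ a)
    (h0 : constantCoeff q ≠ 0) : IsUnit q := by
  obtain ⟨q', hq'⟩ := hq
  have h1 : phi_A3 ∅ q * phi_A3 ∅ q' = Polynomial.X ^ n * Polynomial.C a := by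
    rw [← map_mul, ← hq', phi_empty_hom_A3 hn]
  have hz := phi_eval_zero_A3 ∅ q
  rw [res_empty] at hz
  have h2 : ¬ (Polynomial.X : Polynomial Pol) ∣ phi_A3 ∅ q := by
    rw [Polynomial.X_dvd_iff, Polynomial.coeff_zero_eq_eval_zero, hz]
    intro h
    exact h0 (MvPolynomial.C_eq_zero.1 h)
  obtain ⟨g, hg⟩ := Prime.pow_dvd_of_dvd_mul_left Polynomial.prime_X n h2
    (Dvd.intro _ h1.symm)
  have h3 : g * phi_A3 ∅ q = Polynomial.C a := by
    rw [hg] at h1
    have h4 : (Polynomial.X : Polynomial Pol) ^ n * (g * phi_A3 ∅ q) =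
        Polynomial.X ^ n * Polynomial.C a := by
      rw [← h1]
      ring
    exact mul_left_cancel₀ (pow_ne_zero n Polynomial.X_ne_zero) h4
  obtain ⟨d, hd⟩ := const_of_mul ha h3
  have h5 := phi_eval_one_A3 ∅ q
  rw [hd, Polynomial.eval_C] at h5 hz
  rw [isUnit_iff_exists_C]
  exact ⟨constantCoeff q, h0, by rw [← hz, h5]⟩

end Pool.Agent.H142.RT
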