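import Pool.Agent.H142.RT.Base
import Pool.Agent.H142.RT.A3

open MvPolynomial

namespace Pool.Agent.H142.RT




open Classical in
/-- the substitution of T and -T for the variables i+1 and i -/
noncomputable def sub_A4 (i : ℕ) : ℕ → Polynomial Pol := fun j =>
  if j = i + 1 then Polynomial.X else if j = i then - Polynomial.X else Polynomial.C (X j)

theorem zap_sub_A4 (i : ℕ) (a : Pol) :
    aeval (zap i (sub_A4 i)) a = Polynomial.C (res ({i, i + 1}ᶜ) a) := by
  have h : aeval (zap i (sub_A4 i)) =
      (Polynomial.CAlgHom (R := ℚ) (A := Pol)).comp (res ({i, i + 1}ᶜ)) := by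
    apply MvPolynomial.algHom_ext
    intro j
    rw [aeval_X, AlgHom.comp_apply]
    by_cases h : j = i ∨ j = i + 1
    · rw [res_X_notMem (by simp only [Set.mem_compl_iff, Set.mem_insert_iff, Set.mem_singleton_iff]; tauto), map_zero]
      simp [zap, h]
    · rw [res_X_mem (by simp only [Set.mem_compl_iff, Set.mem_insert_iff, Set.mem_singleton_iff]; tauto)]
      have h1 : j ≠ i := fun e => h (Or.inl e)
      have h2 : j ≠ i + 1 := fun e => h (Or.inr e)
      simp [zap, sub_A4, h1, h2]
  rw [h]
  rfl

/-- evaluation of the coefficients at v and of the variable at x -/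
noncomputable def ev_A4 {R : Type} [CommRing R] [Algebra ℚ R] (v : ℕ → R) (x : R) :
    Polynomial Pol →ₐ[ℚ] R :=
  Polynomial.eval₂AlgHom (aeval v : Pol →ₐ[ℚ] R) x (fun _ => Commute.all _ _)

theorem ev_C_A4 {R : Type} [CommRing R] [Algebra ℚ R] (v : ℕ → R) (x : R) (d : Pol) :
    ev_A4 v x (Polynomial.C d) = aeval v d := by
  simp [ev_A4]

theorem ev_X_A4 {R : Type} [CommRing R] [Algebra ℚ R] (v : ℕ → R) (x : R) :
    ev_A4 v x Polynomial.X = x := by
  simp [ev_A4]

theorem ev_sub_A4 {R : Type} [CommRing R] [Algebra ℚ R] (i : ℕ) (v : ℕ → R)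
    (hv : v (i + 1) = - v i) (a : Pol) :
    ev_A4 v (v (i + 1)) (aeval (sub_A4 i) a) = aeval v a := by
  have h : (ev_A4 v (v (i + 1))).comp (aeval (sub_A4 i)) = aeval v := by
    apply MvPolynomial.algHom_ext
    intro j
    rw [AlgHom.comp_apply, aeval_X, aeval_X]
    unfold sub_A4
    split_ifs with h1 h2
    · rw [ev_X_A4, h1]
    · rw [map_neg, ev_X_A4, hv, neg_neg, h2]
    · rw [ev_C_A4, aeval_X]
  exact DFunLike.congr_fun h a

theorem ev_zap_A4 {R : Type} [CommRing R] [Algebra ℚ R] (i : ℕ) (v : ℕ → R) (a : Pol) :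
    ev_A4 v 0 (aeval (sub_A4 i) a) = aeval (zap i v) a := by
  have h : (ev_A4 v 0).comp (aeval (sub_A4 i)) = aeval (zap i v) := by
    apply MvPolynomial.algHom_ext
    intro j
    rw [AlgHom.comp_apply, aeval_X, aeval_X]
    unfold sub_A4 zap
    by_cases h1 : j = i + 1
    · rw [if_pos h1, if_pos (Or.inr h1), ev_X_A4]
    · by_cases h2 : j = i
      · rw [if_neg h1, if_pos h2, if_pos (Or.inl h2), map_neg, ev_X_A4, neg_zero]
      · rw [if_neg h1, if_neg h2, if_neg (by tauto), ev_C_A4, aeval_X]
  exact DFunLike.congr_fun h a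

theorem fac_canc {n : ℕ} {K : ℕ → Pol} (hK : Pre n K) {L : ℕ} (hL : n + 2 ≤ L) {A : Pol} (hA : A ∣ K L)
    {i : ℕ} (hi : i + 2 ≤ L) {R : Type} [CommRing R] [Algebra ℚ R] (v : ℕ → R) (hv : v (i + 1) = - v i) :
    aeval v A = aeval (zap i v) A := by
  classical
  have h1 : aeval (sub_A4 i) (K L) = aeval (zap i (sub_A4 i)) (K L) :=
    hK.canc (Polynomial Pol) (sub_A4 i) i L hi (by simp [sub_A4])
  rw [zap_sub_A4] at h1
  have h2 : res ({i, i + 1}ᶜ) (K L) ≠ 0 := by
    intro h0
    have h3 := hK.res_ne_zero (((Finset.range L).erase i).erase (i + 1)) L (by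
      rw [Finset.filter_true_of_mem (by
        intro x hx
        simp only [Finset.mem_erase, Finset.mem_range] at hx
        exact hx.2.2)]
      rw [Finset.card_erase_of_mem, Finset.card_erase_of_mem, Finset.card_range]
      · omega
      · rw [Finset.mem_range]; omega
      · rw [Finset.mem_erase, Finset.mem_range]; omega)
    apply h3
    have h4 : ((((Finset.range L).erase i).erase (i + 1) : Finset ℕ) : Set ℕ) ⊆ {i, i + 1}ᶜ := by
      intro x hx
      simp only [Finset.coe_erase, Set.mem_sdiff, Set.mem_singleton_iff, Finset.mem_coe] at hx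
      simp only [Set.mem_compl_iff, Set.mem_insert_iff, Set.mem_singleton_iff]
      tauto
    rw [← res_of_subset h4, h0, map_zero]
  obtain ⟨A', hA'⟩ := hA
  rw [hA', map_mul, mul_comm, ← hA'] at h1
  obtain ⟨d, hd⟩ := const_of_mul h2 h1
  rw [← ev_sub_A4 i v hv A, ← ev_zap_A4 i v A, hd, ev_C_A4, ev_C_A4]

theorem fac_step_A4 {n : ℕ} {K : ℕ → Pol} (hK : Pre n K) {L : ℕ} (hL : n + 2 ≤ L) {A : Pol}
    (hA : A ∣ K L) {q : ℕ} (hk : q + 3 ≤ L) {R : Type} [CommRing R] [Algebra ℚ R] (v : ℕ → R)
    (h1 : v (q + 1) = 0) (h2 : v (q + 2) = 0) :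
    aeval v A = aeval (Function.update (Function.update v q 0) (q + 2) (v q)) A := by
  set w : ℕ → R := Function.update (Function.update v (q + 1) (- v q)) (q + 2) (v q) with hw
  have w0 : w q = v q := by
    rw [hw, Function.update_of_ne (by omega), Function.update_of_ne (by omega)]
  have w1 : w (q + 1) = - v q := by
    rw [hw, Function.update_of_ne (by omega), Function.update_self]
  have w2 : w (q + 2) = v q := by
    rw [hw, Function.update_self]
  have w3 : ∀ j, j ≠ q + 1 → j ≠ q + 2 → w j = v j := by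
    intro j h3 h4
    rw [hw, Function.update_of_ne h4, Function.update_of_ne h3]
  have c1 := fac_canc hK hL hA (i := q) (by omega) w (by rw [w1, w0])
  have c2 := fac_canc hK hL hA (i := q + 1) (by omega) w (by
    rw [show q + 1 + 1 = q + 2 from rfl, w2, w1, neg_neg])
  have e1 : zap q w = Function.update (Function.update v q 0) (q + 2) (v q) := by
    funext j
    unfold zap
    by_cases hj2 : j = q + 2
    · rw [hj2, Function.update_self, if_neg (by omega), w2]
    · rw [Function.update_of_ne hj2]
      by_cases hj0 : j = q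
      · rw [hj0, Function.update_self, if_pos (Or.inl rfl)]
      · rw [Function.update_of_ne hj0]
        by_cases hj1 : j = q + 1
        · rw [if_pos (Or.inr hj1), hj1, h1]
        · rw [if_neg (by tauto), w3 j hj1 hj2]
  have e2 : zap (q + 1) w = v := by
    funext j
    unfold zap
    by_cases hj2 : j = q + 2
    · rw [if_pos (Or.inr hj2), hj2, h2]
    · by_cases hj1 : j = q + 1
      · rw [if_pos (Or.inl hj1), hj1, h1]
      · rw [if_neg (by omega), w3 j hj1 hj2]
  rw [← e1, ← c1, c2, e2]

theorem fac_move {n : ℕ} {K : ℕ → Pol} (hK : Pre n K) {L : ℕ} (hL : n + 2 ≤ L) {A : Pol} (hA : A ∣ K L)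
    {q k : ℕ} (hk : q + 2 * k + 1 ≤ L) {R : Type} [CommRing R] [Algebra ℚ R] (v : ℕ → R)
    (hv : ∀ j, q < j → j ≤ q + 2 * k → v j = 0) :
    aeval v A = aeval (Function.update (Function.update v q 0) (q + 2 * k) (v q)) A := by
  induction k with
  | zero =>
    rw [mul_zero, add_zero, Function.update_idem, Function.update_eq_self]
  | succ k ih =>
    rw [ih (by omega) (fun j h1 h2 => hv j h1 (by omega))]
    set w : ℕ → R := Function.update (Function.update v q 0) (q + 2 * k) (v q) with hw
    have w0 : w (q + 2 * k) = v q := by rw [hw, Function.update_self]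
    have w1 : ∀ j, q + 2 * k < j → w j = v j := by
      intro j hj
      rw [hw, Function.update_of_ne (by omega), Function.update_of_ne (by omega)]
    rw [fac_step_A4 hK hL hA (q := q + 2 * k) (by omega) w
      (by rw [w1 _ (by omega)]; exact hv _ (by omega) (by omega))
      (by rw [w1 _ (by omega)]; exact hv _ (by omega) (by omega)), w0, hw,
      Function.update_idem]
    have e : Function.update (Function.update v q 0) (q + 2 * k) 0 = Function.update v q 0 := by
      rw [Function.update_eq_self_iff]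
      rcases Nat.eq_zero_or_pos k with h | h
      · rw [h, mul_zero, add_zero, Function.update_self]
      · rw [Function.update_of_ne (by omega), hv _ (by omega) (by omega)]
    rw [e]
    rfl


end Pool.Agent.H142.RT
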