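import Pool.Agent.H142.RT.Base

open MvPolynomial

namespace Pool.Agent.H142.RT

theorem dvd_step_A5 {ι : Type*} [Fintype ι] (s : ι → Bool) (K : ι → ℕ → Pol) (i : ι) {L : ℕ}
    (h : lv (s i) L = L) : K i L ∣ node s K (L + 1) - node s K L := by
  rw [node_succ, add_sub_cancel_left]
  refine Dvd.dvd.mul_left ?_ _
  have h1 := Finset.dvd_prod_of_mem (fun j => K j (lv (s j) L)) (Finset.mem_univ i)
  simp only [h] at h1
  exact h1

theorem not_dvd_succ_A5 {n : ℕ} {σ : ℕ → Pol} (h : Pre n σ) {L : ℕ} (hL : n ≤ L) :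
    ¬ σ L ∣ σ (L + 1) := by
  rintro ⟨c, hc⟩
  have h1 : σ L ≠ 0 := h.ne_zero hL
  have h2 : σ (L + 1) ≠ 0 := h.ne_zero (by omega)
  have h3 : c ≠ 0 := by
    rintro rfl
    rw [mul_zero] at hc
    exact h2 hc
  have h4 := totalDegree_mul_of_isDomain h1 h3
  rw [← hc, (h.hom L).totalDegree h1, (h.hom (L + 1)).totalDegree h2] at h4
  have h5 : c.totalDegree = 0 := by omega
  rw [totalDegree_eq_zero_iff_eq_C] at h5
  have h6 := congrArg (res (Set.Iio L)) hc
  rw [h.coh L (L + 1) (by omega), map_mul, h.supp L, h5, res_C] at h6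
  have h7 : (C (coeff 0 c) : Pol) = 1 := by
    have h8 : σ L * C (coeff 0 c) = σ L * 1 := by rw [mul_one]; exact h6.symm
    exact mul_left_cancel₀ h1 h8
  rw [h7] at h5
  rw [h5, mul_one] at hc
  exact h.mono L (by omega) hc

theorem down_A5 {n m : ℕ} {σ N : ℕ → Pol} (h : Pre n σ) (hN : Pre m N) {k L : ℕ}
    (hd : σ (L + 1) ^ k ∣ N (L + 1)) : σ L ^ k ∣ N L := by
  have h1 := map_dvd (res (Set.Iio L)) hd
  rw [map_pow, h.coh L (L + 1) (by omega), hN.coh L (L + 1) (by omega)] at h1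
  exact h1

theorem down'_A5 {n m : ℕ} {σ N : ℕ → Pol} (h : Pre n σ) (hN : Pre m N) {k L : ℕ} (hk : 1 ≤ k)
    (hL : n ≤ L) (hirr : Irreducible (σ L)) (ha : σ L ∣ N (L + 1) - N L)
    (hd : σ (L + 1) ^ k ∣ N (L + 1)) : σ L ^ (k + 1) ∣ N L := by
  have h1 := down_A5 h hN hd
  have h2 : σ L ∣ N L := (dvd_pow_self _ (by omega)).trans h1
  have h3 : σ L ∣ N (L + 1) := by
    have := dvd_add ha h2
    rwa [sub_add_cancel] at this
  obtain ⟨G, hG⟩ := hd
  have hp : Prime (σ L) := hirr.prime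
  rw [hG] at h3
  rcases hp.dvd_or_dvd h3 with h4 | h4
  · exact absurd (hp.dvd_of_dvd_pow h4) (not_dvd_succ_A5 h hL)
  · obtain ⟨G', hG'⟩ := h4
    have h5 := congrArg (res (Set.Iio L)) hG
    rw [hG', map_mul, map_mul, map_pow, h.coh L (L + 1) (by omega),
      hN.coh L (L + 1) (by omega), h.supp L] at h5
    rw [h5, ← mul_assoc, ← pow_succ]
    exact dvd_mul_right _ _

theorem nondvd {ι : Type*} [Fintype ι] (s : ι → Bool) (K : ι → ℕ → Pol) (n : ι → ℕ)
    (hK : ∀ i, Pre (n i) (K i)) (hN : Pre (1 + ∑ i, n i) (node s K)) (i : ι) {L₀ : ℕ}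
    (hirr : ∀ L, L₀ ≤ L → Irreducible (K i L)) : ∃ L₁, ∀ L, L₁ ≤ L → ¬ K i L ∣ node s K L := by
  have hni : n i ≤ ∑ j, n j := Finset.single_le_sum (fun _ _ => Nat.zero_le _) (Finset.mem_univ i)
  have h1i := (hK i).one_le
  set m := 1 + ∑ j, n j with hm
  have two : ∀ k L, 1 ≤ k → max L₀ m ≤ L → K i (L + 2) ^ k ∣ node s K (L + 2) →
      K i L ^ (k + 1) ∣ node s K L := by
    intro k L hk hL hd
    have hL0 : L₀ ≤ L := (le_max_left _ _).trans hL
    have hLm : m ≤ L := (le_max_right _ _).trans hL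
    rcases lv_cases (s i) L with h | h
    · exact down'_A5 (hK i) hN hk (by omega) (hirr L hL0) (dvd_step_A5 s K i h)
        (down_A5 (hK i) hN (L := L + 1) hd)
    · have h' := lv_succ_eq h
      exact down_A5 (hK i) hN (down'_A5 (hK i) hN (L := L + 1) hk (by omega)
        (hirr (L + 1) (by omega)) (dvd_step_A5 s K i h') hd)
  have iter : ∀ q k L, 1 ≤ k → max L₀ m ≤ L → K i (L + 2 * q) ^ k ∣ node s K (L + 2 * q) →
      K i L ^ (k + q) ∣ node s K L := by
    intro q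
    induction q with
    | zero => intro k L _ _ hd; simpa using hd
    | succ q ih =>
      intro k L hk hL hd
      have h1 := two k (L + 2 * q) hk (by omega) (by
        have : L + 2 * (q + 1) = L + 2 * q + 2 := by ring
        rw [this] at hd
        exact hd)
      have h2 := ih (k + 1) L (by omega) hL h1
      have : k + 1 + q = k + (q + 1) := by ring
      rw [this] at h2
      exact h2
  refine ⟨max L₀ m + 2 * m, fun L hL hd => ?_⟩
  obtain ⟨L', rfl⟩ : ∃ L', L = L' + 2 * m := ⟨L - 2 * m, by omega⟩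
  have hL' : max L₀ m ≤ L' := by omega
  have hLm : m ≤ L' := (le_max_right _ _).trans hL'
  have h1 := iter m 1 L' le_rfl hL' (by rw [pow_one]; exact hd)
  obtain ⟨c, hc⟩ := h1
  have h2 : node s K L' ≠ 0 := hN.ne_zero hLm
  have h3 : K i L' ≠ 0 := (hK i).ne_zero (by omega)
  have h4 : c ≠ 0 := by
    rintro rfl
    rw [mul_zero] at hc
    exact h2 hc
  have h5 := totalDegree_mul_of_isDomain (pow_ne_zero (1 + m) h3) h4
  rw [← hc, (hN.hom L').totalDegree h2,
    (((hK i).hom L').pow (1 + m)).totalDegree (pow_ne_zero (1 + m) h3)] at h5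
  have h6 : 1 + m ≤ n i * (1 + m) := Nat.le_mul_of_pos_left _ h1i
  omega

end Pool.Agent.H142.RT
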