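import Pool.Agent.H142.RT.Base
import Pool.Agent.H142.RT.A3
import Pool.Agent.H142.RT.A4

open MvPolynomial

namespace Pool.Agent.H142.RT





/-- the values: the variable `p + 1` goes to `X`, the others to constants -/
noncomputable def val_A6 {Q : Type} [CommRing Q] [Algebra ℚ Q] (q : Pol →ₐ[ℚ] Q) (p : ℕ) (j : ℕ) :
    Polynomial Q := if j = p + 1 then Polynomial.X else Polynomial.C (q (X j))

/-- the homomorphism to polynomials in the variable `p + 1` -/
noncomputable def psi_A6 {Q : Type} [CommRing Q] [Algebra ℚ Q] (q : Pol →ₐ[ℚ] Q) (p : ℕ) :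
    Pol →ₐ[ℚ] Polynomial Q := aeval (val_A6 q p)

theorem psi_res_A6 {Q : Type} [CommRing Q] [Algebra ℚ Q] (q : Pol →ₐ[ℚ] Q) (p : ℕ) (a : Pol)
    (ha : res (Set.Iio (p + 1)) a = a) : psi_A6 q p a = Polynomial.C (q a) := by
  have hC : aeval (fun j => (Polynomial.C (q (X j)) : Polynomial Q)) a = Polynomial.C (q a) := by
    have : aeval (fun j => (Polynomial.C (q (X j)) : Polynomial Q)) =
        (Polynomial.CAlgHom (R := ℚ) (A := Q)).comp q := by
      apply MvPolynomial.algHom_ext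
      intro j
      simp
    rw [this]; rfl
  have h1 := aeval_res (Set.Iio (p + 1)) (val_A6 q p) a
  have h2 := aeval_res (Set.Iio (p + 1)) (fun j => (Polynomial.C (q (X j)) : Polynomial Q)) a
  rw [ha] at h1 h2
  have h3 : (Set.Iio (p + 1)).indicator (val_A6 q p) =
      (Set.Iio (p + 1)).indicator (fun j => (Polynomial.C (q (X j)) : Polynomial Q)) := by
    funext j
    by_cases hj : j ∈ Set.Iio (p + 1)
    · rw [Set.indicator_of_mem hj, Set.indicator_of_mem hj]
      have : j ≠ p + 1 := by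
        have := Set.mem_Iio.1 hj
        omega
      simp only [val_A6, if_neg this]
    · rw [Set.indicator_of_notMem hj, Set.indicator_of_notMem hj]
  rw [h3, ← h2, hC] at h1
  exact h1

theorem eval_psi_A6 {Q : Type} [CommRing Q] [Algebra ℚ Q] (q : Pol →ₐ[ℚ] Q) (p : ℕ) (c : Q)
    (u : ℕ → Pol) (hc : q (u (p + 1)) = c) (hu : ∀ j, j ≠ p + 1 → u j = X j) (a : Pol) :
    Polynomial.eval c (psi_A6 q p a) = q (aeval u a) := by
  have : ((Polynomial.aeval c : Polynomial Q →ₐ[Q] Q).restrictScalars ℚ).comp (psi_A6 q p) =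
      q.comp (aeval u) := by
    apply MvPolynomial.algHom_ext
    intro j
    by_cases hj : j = p + 1
    · subst hj
      simp [psi_A6, val_A6, hc]
    · simp [psi_A6, val_A6, hj, hu j hj]
  have h2 := DFunLike.congr_fun this a
  simpa [Polynomial.coe_aeval_eq_eval] using h2

theorem core_A6 {Q : Type} [CommRing Q] [IsDomain Q] [Algebra ℚ Q] (q : Pol →ₐ[ℚ] Q)
    {ι : Type*} [Fintype ι] (s : ι → Bool) (K : ι → ℕ → Pol) (n : ι → ℕ)
    (hK : ∀ i, Pre (n i) (K i)) (hN : Pre (1 + ∑ i, n i) (node s K)) (i : ι) {p : ℕ}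
    (hlv : lv (s i) (p + 1) = p + 1) (hq : q (K i (p + 1)) = 0)
    (hne : q (node s K (p + 1)) ≠ 0) (hp : 1 + ∑ i, n i ≤ p) {M : ℕ} (hM : p + 2 ≤ M)
    {A B : Pol} (hAB : node s K M = A * B) :
    q (res (Set.Iio (p + 1)) B) = q (res (Set.Iio p) B) := by
  classical
  have hcoh : node s K (p + 2) = res (Set.Iio (p + 2)) A * res (Set.Iio (p + 2)) B := by
    rw [← hN.coh (p + 2) M hM, hAB, map_mul]
  have hpa : psi_A6 q p (K i (p + 1)) = 0 := by
    rw [psi_res_A6 q p _ ((hK i).supp (p + 1)), hq, map_zero]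
  have hpN : psi_A6 q p (node s K (p + 2)) = Polynomial.C (q (node s K (p + 1))) := by
    rw [node_succ, map_add, map_mul]
    have h1 : psi_A6 q p (∏ j, K j (lv (s j) (p + 1))) = 0 := by
      rw [map_prod]
      refine Finset.prod_eq_zero (Finset.mem_univ i) ?_
      rw [hlv, hpa]
    rw [h1, mul_zero, add_zero, psi_res_A6 q p _ (hN.supp (p + 1))]
  rw [hcoh, map_mul] at hpN
  obtain ⟨b, hb⟩ := const_of_mul hne hpN
  -- the two evaluations
  let w : ℕ → Pol := Function.update X (p + 1) (-X p)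
  have e1 := eval_psi_A6 q p (-q (X p)) w (by simp [w]) (fun j hj => by simp [w, hj])
    (res (Set.Iio (p + 2)) B)
  have e2 := eval_psi_A6 q p 0 (({p + 1}ᶜ : Set ℕ).indicator X) (by simp) (fun j hj => by
      rw [Set.indicator_of_mem]; simpa using hj)
    (res (Set.Iio (p + 2)) B)
  rw [hb, Polynomial.eval_C] at e1 e2
  have e3 : aeval (({p + 1}ᶜ : Set ℕ).indicator (X : ℕ → Pol)) (res (Set.Iio (p + 2)) B) =
      res (Set.Iio (p + 1)) B := by
    have : aeval (({p + 1}ᶜ : Set ℕ).indicator (X : ℕ → Pol)) (res (Set.Iio (p + 2)) B) =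
      res ({p + 1}ᶜ : Set ℕ) (res (Set.Iio (p + 2)) B) := rfl
    rw [this, res_res]
    congr 2
    ext j
    simp only [Set.mem_inter_iff, Set.mem_compl_iff, Set.mem_singleton_iff, Set.mem_Iio]
    omega
  have e4 : aeval w (res (Set.Iio (p + 2)) B) = res (Set.Iio p) B := by
    have h1 := fac_canc hN (L := p + 2) (by omega) (A := res (Set.Iio (p + 2)) B)
      ⟨res (Set.Iio (p + 2)) A, by rw [hcoh, mul_comm]⟩ (i := p) le_rfl w (by simp [w])
    rw [h1, aeval_res]
    show _ = aeval ((Set.Iio p).indicator (X : ℕ → Pol)) B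
    congr 2
    funext j
    by_cases hj : j < p
    · rw [Set.indicator_of_mem (show j ∈ Set.Iio (p + 2) from by simp; omega),
        Set.indicator_of_mem (show j ∈ Set.Iio p from hj)]
      have h1 : ¬ (j = p ∨ j = p + 1) := by omega
      have h2 : j ≠ p + 1 := by omega
      simp only [zap, w]
      rw [if_neg h1, Function.update_of_ne h2]
    · rw [Set.indicator_of_notMem (show j ∉ Set.Iio p from hj)]
      by_cases hj2 : j < p + 2
      · rw [Set.indicator_of_mem (show j ∈ Set.Iio (p + 2) from hj2)]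
        have h1 : j = p ∨ j = p + 1 := by omega
        simp only [zap]
        rw [if_pos h1]
      · rw [Set.indicator_of_notMem (show j ∉ Set.Iio (p + 2) from hj2)]
  rw [e4] at e1
  rw [e3] at e2
  rw [← e1, ← e2]

theorem relation {ι : Type*} [Fintype ι] (s : ι → Bool) (K : ι → ℕ → Pol) (n : ι → ℕ)
    (hK : ∀ i, Pre (n i) (K i)) (hN : Pre (1 + ∑ i, n i) (node s K)) (i : ι) {p : ℕ}
    (hlv : lv (s i) (p + 1) = p + 1) (hirr : Irreducible (K i (p + 1)))
    (hnd : ¬ K i (p + 1) ∣ node s K (p + 1)) (hp : 1 + ∑ i, n i ≤ p) {M : ℕ} (hM : p + 2 ≤ M)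
    {A B : Pol} (hAB : node s K M = A * B) :
    K i (p + 1) ∣ res (Set.Iio (p + 1)) B - res (Set.Iio p) B := by
  have hprime : Prime (K i (p + 1)) := hirr.prime
  have hI : (Ideal.span {K i (p + 1)} : Ideal Pol).IsPrime :=
    (Ideal.span_singleton_prime hprime.ne_zero).2 hprime
  have hdom : IsDomain (Pol ⧸ (Ideal.span {K i (p + 1)} : Ideal Pol)) := Ideal.Quotient.isDomain _
  have hq : ∀ a : Pol, (Ideal.Quotient.mkₐ ℚ (Ideal.span {K i (p + 1)} : Ideal Pol) a = 0 ↔
      K i (p + 1) ∣ a) := fun a => by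
    rw [Ideal.Quotient.mkₐ_eq_mk, Ideal.Quotient.eq_zero_iff_mem, Ideal.mem_span_singleton]
  have := core_A6 (Ideal.Quotient.mkₐ ℚ (Ideal.span {K i (p + 1)} : Ideal Pol)) s K n hK hN i hlv
    ((hq _).2 dvd_rfl) (fun h => hnd ((hq _).1 h)) hp hM hAB
  rw [← hq, map_sub, this, sub_self]

end Pool.Agent.H142.RT
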