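import Pool.Agent.H142.RT.Base

open MvPolynomial

namespace Pool.Agent.H142.RT

theorem card_lt_A7 {n : ℕ} {K : ℕ → Pol} (h : Pre n K) (S : Finset ℕ)
    (h0 : ∀ M, res S (K M) = 0) : S.card < n := by
  by_contra hle
  push Not at hle
  refine h.res_ne_zero S (S.sup id + 1) ?_ (h0 _)
  rw [Finset.filter_true_of_mem]
  · exact hle
  · intro x hx
    have := Finset.le_sup (f := id) hx
    simp only [id] at this
    omega

theorem res_insert_A7 {n : ℕ} {K : ℕ → Pol} (h : Pre n K) (S : Finset ℕ) (p : ℕ)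
    (h0 : ∀ M, res S (K M) = 0) {m : ℕ} (hm : m ≤ p) :
    res ((insert p S : Finset ℕ) : Set ℕ) (K m) = 0 := by
  rw [← h.supp m, res_res]
  have hsub : ((insert p S : Finset ℕ) : Set ℕ) ∩ Set.Iio m ⊆ (S : Set ℕ) := by
    rintro x ⟨hx, hxm⟩
    rw [Finset.mem_coe, Finset.mem_insert] at hx
    rcases hx with rfl | hx
    · exact absurd (Set.mem_Iio.1 hxm) (by omega)
    · exact hx
  rw [← res_of_subset hsub, h0, map_zero]

theorem exists_S {ι : Type*} [Fintype ι] [Nonempty ι] (s : ι → Bool) (K : ι → ℕ → Pol) (n : ι → ℕ)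
    (hK : ∀ i, Pre (n i) (K i)) : ∃ S : Finset ℕ, (∀ M, res S (node s K M) = 0) ∧
      ∀ i M, (∀ x ∈ S, x < M) → res S (K i M) ≠ 0 := by
  classical
  let V : Finset ℕ → Prop := fun S => ∃ i, ∀ M, res S (K i M) = 0
  have hV0 : V ∅ := by
    obtain ⟨i⟩ := (inferInstance : Nonempty ι)
    refine ⟨i, fun M => ?_⟩
    rw [Finset.coe_empty, res_empty, (hK i).constantCoeff_eq_zero, C_0]
  have hb : ∀ S, V S → S.card ≤ ∑ i, n i := by
    rintro S ⟨i, hi⟩
    have h1 := card_lt_A7 (hK i) S hi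
    have h2 : n i ≤ ∑ i, n i := Finset.single_le_sum (fun _ _ => Nat.zero_le _) (Finset.mem_univ i)
    omega
  let P : ℕ → Prop := fun k => ∃ S, V S ∧ S.card = k
  have hP0 : P 0 := ⟨∅, hV0, by simp⟩
  obtain ⟨S, ⟨i, hi⟩, hcard⟩ : P (Nat.findGreatest P (∑ i, n i)) :=
    Nat.findGreatest_spec (Nat.zero_le _) hP0
  have hmax : ∀ T, V T → T.card ≤ S.card := by
    intro T hT
    rw [hcard]
    exact Nat.le_findGreatest (hb T hT) ⟨T, hT, rfl⟩
  obtain ⟨p, hpS, hp⟩ : ∃ p, (∀ x ∈ S, x < p) ∧ lv (s i) p = p := by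
    have hS : ∀ x ∈ S, x < S.sup id + 1 := by
      intro x hx
      have := Finset.le_sup (f := id) hx
      simp only [id] at this
      omega
    rcases lv_cases (s i) (S.sup id + 1) with h | h
    · exact ⟨_, hS, h⟩
    · exact ⟨S.sup id + 1 + 1, fun x hx => (hS x hx).trans (Nat.lt_succ_self _), lv_succ_eq h⟩
  have hpn : p ∉ S := fun h => lt_irrefl _ (hpS p h)
  have hnV : ¬ V (insert p S) := by
    intro h
    have := hmax _ h
    rw [Finset.card_insert_of_notMem hpn] at this
    omega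
  refine ⟨insert p S, fun M => ?_, fun j M hM h0 => ?_⟩
  · rw [node, map_sum]
    refine Finset.sum_eq_zero fun l _ => ?_
    rw [map_mul]
    by_cases hl : l ∈ insert p S
    · have hle : lv (s i) l ≤ p := by
        rw [Finset.mem_insert] at hl
        rcases hl with rfl | hl
        · exact hp.le
        · have h1 := hpS l hl
          have h2 := lv_le (s i) l
          omega
      rw [map_prod, Finset.prod_eq_zero (Finset.mem_univ i)
        (res_insert_A7 (hK i) S p hi hle), mul_zero]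
    · rw [res_X_notMem (by simpa using hl), zero_mul]
  · exact hnV ⟨j, fun L => (hK j).res_eq_zero_all (fun x hx => hM x hx) h0 L⟩

end Pool.Agent.H142.RT
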