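import Pool.Agent.H142.RT.Base
import Pool.Agent.H142.RT.A3

open MvPolynomial

namespace Pool.Agent.H142.RT



/-- A nonzero polynomial all of whose prime divisors are fixed by a restriction is fixed by it. -/
theorem fixed_of_prime_dvd_A8 {U : Set ℕ} (b : Pol) (hb : b ≠ 0)
    (h : ∀ q : Pol, Prime q → q ∣ b → res U q = q) : res U b = b := by
  revert hb h
  induction b using UniqueFactorizationMonoid.induction_on_prime with
  | h₁ => intro hb; exact absurd rfl hb
  | h₂ x hx =>
    intro _ _
    obtain ⟨c, _, rfl⟩ := isUnit_iff_exists_C.1 hx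
    exact res_C U c
  | h₃ a q ha hq ih =>
    intro _ h
    rw [map_mul, h q hq (dvd_mul_right _ _), ih ha fun q' hq' hd => h q' hq' (hd.mul_left _)]

/-- Primality of a variable. -/
theorem prime_X_A8 (p : ℕ) : Prime (X p : Pol) := MvPolynomial.X_prime

theorem top_free {ι : Type*} [Fintype ι] (s : ι → Bool) (K : ι → ℕ → Pol) (n : ι → ℕ)
    (hK : ∀ i, Pre (n i) (K i)) (hN : Pre (1 + ∑ i, n i) (node s K)) (S : Finset ℕ)
    (hS0 : ∀ M, res S (node s K M) = 0) (hSne : ∀ i M, (∀ x ∈ S, x < M) → res S (K i M) ≠ 0)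
    {p : ℕ} (hp : ∀ x ∈ S, x < p) {M : ℕ} (hM : p + 2 ≤ M) {A B : Pol} (hAB : node s K M = A * B)
    (hrel : ∀ i, lv (s i) p = p + 1 → K i (p + 1) ∣ res (Set.Iio (p + 1)) B - res (Set.Iio p) B) :
    (res S A ≠ 0 ∨ res S B ≠ 0) ∧
      (res (S : Set ℕ) B ≠ 0 → res (insert p (S : Set ℕ)) B = res (S : Set ℕ) B) := by
  classical
  have hpS : p ∉ (S : Set ℕ) := fun h => lt_irrefl _ (hp p h)
  set T : Set ℕ := insert p (S : Set ℕ) with hT
  have hST : (S : Set ℕ) ⊆ T := Set.subset_insert _ _
  have hTI : T ⊆ Set.Iio (p + 1) := by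
    intro x hx
    rcases hx with rfl | hx
    · simp
    · have := hp x hx
      simp; omega
  have hTp : T ∩ Set.Iio p = (S : Set ℕ) := by
    ext x
    constructor
    · rintro ⟨hx | hx, h2⟩
      · subst hx; simp at h2
      · exact hx
    · intro hx
      exact ⟨hST hx, hp x hx⟩
  have hcT : ({p}ᶜ : Set ℕ) ∩ T = (S : Set ℕ) := by
    ext x
    constructor
    · rintro ⟨h2, hx | hx⟩
      · exact absurd hx h2
      · exact hx
    · intro hx
      refine ⟨?_, hST hx⟩
      rintro rfl
      exact hpS hx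
  have hcS : ({p}ᶜ : Set ℕ) ∩ (S : Set ℕ) = (S : Set ℕ) := by
    apply Set.inter_eq_right.2
    intro x hx h
    rw [Set.mem_singleton_iff] at h
    subst h
    exact hpS hx
  set Q : Pol := ∏ i, res T (K i (lv (s i) p)) with hQ
  have hprod : res T A * res T B = X p * Q := by
    rw [← map_mul, ← hAB, ← res_of_subset hTI, hN.coh (p + 1) M (by omega), node_succ, map_add, map_mul,
      res_X_mem (Set.mem_insert _ _), map_prod]
    have : res T (node s K p) = 0 := by
      rw [← hN.supp p, res_res, hTp]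
      exact hS0 p
    rw [this, zero_add]
  have hQS : res (S : Set ℕ) Q = ∏ i, res (S : Set ℕ) (K i (lv (s i) p)) := by
    rw [hQ, map_prod]
    refine Finset.prod_congr rfl fun i _ => ?_
    exact res_of_subset hST _
  have hQS0 : res (S : Set ℕ) Q ≠ 0 := by
    rw [hQS]
    refine Finset.prod_ne_zero_iff.2 fun i _ => ?_
    exact hSne i _ fun x hx => lt_of_lt_of_le (hp x hx) (le_lv _ _)
  have hQ0 : Q ≠ 0 := by
    rintro h
    rw [h, map_zero] at hQS0
    exact hQS0 rfl
  have hnd : ¬ (X p : Pol) ∣ Q := by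
    rintro ⟨c, hc⟩
    apply hQS0
    rw [hc, map_mul, res_X_notMem hpS, zero_mul]
  have hX0 : (X p : Pol) ≠ 0 := X_ne_zero p
  have hcA : ∀ a : Pol, res {p}ᶜ (res T a) = res (S : Set ℕ) a := fun a => by rw [res_res, hcT]
  refine ⟨?_, ?_⟩
  · by_contra hcon
    push Not at hcon
    obtain ⟨hA0, hB0⟩ := hcon
    have h1 : (X p : Pol) ∣ res T A := X_dvd_of_res_eq_zero (by rw [hcA]; exact hA0)
    have h2 : (X p : Pol) ∣ res T B := X_dvd_of_res_eq_zero (by rw [hcA]; exact hB0)
    have h3 : (X p : Pol) * X p ∣ X p * Q := hprod ▸ mul_dvd_mul h1 h2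
    exact hnd ((mul_dvd_mul_iff_left hX0).1 h3)
  · intro hB
    have hB'0 : res T B ≠ 0 := by
      intro h
      apply hB
      rw [← hcA, h, map_zero]
    have hXB : ¬ (X p : Pol) ∣ res T B := by
      rintro ⟨c, hc⟩
      apply hB
      rw [← hcA, hc, map_mul, res_X_notMem (by simp), zero_mul]
    have key : res {p}ᶜ (res T B) = res T B := by
      refine fixed_of_prime_dvd_A8 _ hB'0 fun q hq hqB => ?_
      have hqX : q ∣ X p * Q := hprod ▸ hqB.mul_left _
      rcases hq.dvd_or_dvd hqX with h | h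
      · exfalso
        apply hXB
        have : Associated q (X p : Pol) := hq.irreducible.associated_of_dvd (prime_X_A8 p).irreducible h
        exact this.symm.dvd.trans hqB
      · obtain ⟨i, _, hi⟩ := (Prime.dvd_finsetProd_iff hq _).1 h
        rcases lv_cases (s i) p with hl | hl
        · rw [hl, ← (hK i).supp p, res_res, hTp] at hi
          exact fac_free (hSne i p hp) (by rw [res_res, hcS]) hi
        · rw [hl] at hi
          have h1 : res T (K i (p + 1)) ∣ res T B - res (S : Set ℕ) B := by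
            obtain ⟨c, hc⟩ := hrel i hl
            refine ⟨res T c, ?_⟩
            rw [← map_mul, ← hc, map_sub, res_of_subset hTI, res_res T (Set.Iio p), hTp]
          have h2 : q ∣ res (S : Set ℕ) B := by
            have := dvd_sub hqB (hi.trans h1)
            rwa [sub_sub_cancel] at this
          exact fac_free hB (by rw [res_res, hcS]) h2
    rw [← key, hcA]

end Pool.Agent.H142.RT
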