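import Pool.Agent.H142.RT.Base
import Pool.Agent.H142.RT.A4

open MvPolynomial

namespace Pool.Agent.H142.RT



theorem inter_A9 {S T : Set ℕ} {q r : ℕ} (hqr : q ≠ r)
    (hS : S = insert q T) : (insert r T) ∩ S = T := by
  subst hS
  ext x
  simp only [Set.mem_inter_iff, Set.mem_insert_iff]
  constructor
  · rintro ⟨h1 | h1, h2 | h2⟩
    · exact absurd (h2.symm.trans h1) hqr
    · exact h2
    · exact h1
    · exact h1
  · intro h
    exact ⟨Or.inr h, Or.inr h⟩

theorem step1_A9 {B : Pol} {S T : Set ℕ} {q r : ℕ} (hqr : q ≠ r)
    (hS : S = insert q T) (h1 : res (insert r S) B = res S B) :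
    res (insert r T) B = res T B := by
  have h2 := congrArg (res (insert r T)) h1
  rw [res_of_subset (Set.insert_subset_insert (by rw [hS]; exact Set.subset_insert _ _)), res_res,
    inter_A9 hqr hS] at h2
  exact h2

theorem step2_A9 {n : ℕ} {K : ℕ → Pol} (hK : Pre n K) {L : ℕ} (hL : n + 2 ≤ L)
    {B : Pol} (hB : B ∣ K L) {T : Set ℕ} {q k : ℕ} (hk : q + 2 * k + 1 ≤ L) (hk0 : 0 < k)
    (hT : ∀ x ∈ T, x < q) (h1 : res (insert (q + 2 * k) T) B = res T B) :
    res (insert q T) B = res T B := by
  have hqT : q ∉ T := fun h => lt_irrefl _ (hT q h)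
  set r := q + 2 * k with hr
  have hrT : r ∉ T := fun h => by have := hT r h; omega
  have hqr : q ≠ r := by omega
  have e1 := fac_move hK hL hB hk ((insert q T : Set ℕ).indicator (X : ℕ → Pol)) (by
    intro j hj1 hj2
    apply Set.indicator_of_notMem
    rintro (h | h)
    · omega
    · have := hT j h
      omega)
  rw [← hr] at e1
  have hθ : Function.update (Function.update ((insert q T : Set ℕ).indicator (X : ℕ → Pol)) q 0) r
      ((insert q T : Set ℕ).indicator (X : ℕ → Pol) q) =
      (insert r T : Set ℕ).indicator (Function.update (X : ℕ → Pol) r (X q)) := by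
    funext j
    by_cases hj : j = r
    · subst hj
      rw [Function.update_self, Set.indicator_of_mem (Set.mem_insert _ _),
        Set.indicator_of_mem (Set.mem_insert _ _), Function.update_self]
    · rw [Function.update_of_ne hj]
      by_cases hjq : j = q
      · subst hjq
        rw [Function.update_self, Set.indicator_of_notMem]
        rintro (h | h)
        · exact hqr h
        · exact hqT h
      · rw [Function.update_of_ne hjq]
        by_cases hjT : j ∈ T
        · rw [Set.indicator_of_mem (Set.mem_insert_of_mem _ hjT),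
            Set.indicator_of_mem (Set.mem_insert_of_mem _ hjT), Function.update_of_ne hj]
        · rw [Set.indicator_of_notMem, Set.indicator_of_notMem]
          · rintro (h | h)
            · exact hj h
            · exact hjT h
          · rintro (h | h)
            · exact hjq h
            · exact hjT h
  rw [hθ, ← aeval_res (insert r T) (Function.update (X : ℕ → Pol) r (X q)) B, h1,
    aeval_res T] at e1
  have hθ2 : T.indicator (Function.update (X : ℕ → Pol) r (X q)) = T.indicator X := by
    funext j
    by_cases hjT : j ∈ T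
    · rw [Set.indicator_of_mem hjT, Set.indicator_of_mem hjT, Function.update_of_ne]
      rintro rfl
      exact hrT hjT
    · rw [Set.indicator_of_notMem hjT, Set.indicator_of_notMem hjT]
  rw [hθ2] at e1
  exact e1

theorem descent {n : ℕ} {K : ℕ → Pol} (hK : Pre n K) {p L : ℕ} (hL : n + 2 ≤ L) (hp : p + 3 ≤ L)
    {B : Pol} (hB : B ∣ K L) (S : Finset ℕ) (hS : ∀ x ∈ S, x < p) (h0 : res (S : Set ℕ) B ≠ 0)
    (h1 : res (insert p (S : Set ℕ)) B = res (S : Set ℕ) B)
    (h2 : res (insert (p + 1) (S : Set ℕ)) B = res (S : Set ℕ) B) : constantCoeff B ≠ 0 := by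
  induction S using Finset.induction_on_max with
  | empty =>
    intro h3
    apply h0
    rw [Finset.coe_empty, res_empty, h3, C_0]
  | insert q S0 hq ih =>
    have hqp : q < p := hS q (Finset.mem_insert_self _ _)
    have hST : ((insert q S0 : Finset ℕ) : Set ℕ) = insert q (S0 : Set ℕ) := Finset.coe_insert _ _
    have hT : ∀ x ∈ (S0 : Set ℕ), x < q := fun x hx => hq x hx
    have h1' := step1_A9 (q := q) (by omega) hST h1
    have h2' := step1_A9 (q := q) (by omega) hST h2
    have h3 : res (insert q (S0 : Set ℕ)) B = res (S0 : Set ℕ) B := by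
      rcases Nat.even_or_odd' (p - q) with ⟨k, hk | hk⟩
      · have hr : p = q + 2 * k := by omega
        exact step2_A9 hK hL hB (k := k) (by omega) (by omega) hT (by rw [← hr]; exact h1')
      · have hr : p + 1 = q + 2 * (k + 1) := by omega
        exact step2_A9 hK hL hB (k := k + 1) (by omega) (by omega) hT (by rw [← hr]; exact h2')
    refine ih (fun x hx => hS x (Finset.mem_insert_of_mem hx)) ?_ h1' h2'
    rw [← h3, ← hST]
    exact h0

end Pool.Agent.H142.RT
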