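import Pool.Agent.H142.RT.PosetDefs

open MvPolynomial

namespace Pool.Agent.H142.RT

variable {P : Type*} [PartialOrder P]

theorem NS_zero [Fintype P] (wk : P → P → Bool) {R : Type*} [CommRing R] (ε : ℕ → Bool) (c : ℕ → R) (p : P) :
    NS wk ε c p 0 = 0 := by
  classical
  unfold NS
  apply Finset.sum_eq_zero
  intro f hf
  rw [Finset.mem_filter, Fintype.mem_piFinset] at hf
  have h := hf.1 ⟨p, le_refl p⟩
  simp at h

theorem NS_congr [Fintype P] (wk : P → P → Bool) {R : Type*} [CommRing R] {ε ε' : ℕ → Bool} {c c' : ℕ → R}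
    (p : P) {L : ℕ} (hε : ∀ i, i < L → ε i = ε' i) (hc : ∀ i, i < L → c i = c' i) :
    NS wk ε c p L = NS wk ε' c' p L := by
  classical
  unfold NS
  apply Finset.sum_congr
  · apply Finset.filter_congr
    intro f hf
    rw [Fintype.mem_piFinset] at hf
    unfold Adm
    refine forall_congr' fun a => forall_congr' fun b => ?_
    rw [hε (f a) (Finset.mem_range.mp (hf a))]
  · intro f hf
    rw [Finset.mem_filter, Fintype.mem_piFinset] at hf
    exact Finset.prod_congr rfl fun q _ => hc (f q) (Finset.mem_range.mp (hf.1 q))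

theorem NS_map [Fintype P] (wk : P → P → Bool) {R S : Type*} [CommRing R] [CommRing S] (φ : R →+* S)
    (ε : ℕ → Bool) (c : ℕ → R) (p : P) (L : ℕ) :
    NS wk ε (fun i => φ (c i)) p L = φ (NS wk ε c p L) := by
  classical
  unfold NS
  rw [map_sum]
  exact Finset.sum_congr rfl fun f _ => (map_prod φ _ _).symm

end Pool.Agent.H142.RT
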