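import Pool.Agent.H142.RT.PosetDefs

open MvPolynomial

namespace Pool.Agent.H142.RT

variable {P : Type*} [PartialOrder P]

theorem downset_chain_B2 [Finite P] (hu : ∀ a b c : P, a ⋖ c → b ⋖ c → a = b) :
    ∀ x a b : P, a ≤ x → b ≤ x → a ≤ b ∨ b ≤ a := by
  intro x
  induction x using WellFoundedLT.induction with
  | ind x ih =>
    intro a b ha hb
    rcases ha.eq_or_lt with rfl | ha
    · exact Or.inr hb
    rcases hb.eq_or_lt with rfl | hb
    · exact Or.inl ha.le
    obtain ⟨a', ha', hax⟩ := exists_le_covBy_of_lt ha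
    obtain ⟨b', hb', hbx⟩ := exists_le_covBy_of_lt hb
    have hab := hu _ _ _ hax hbx
    subst hab
    exact ih a' hax.lt a b ha' hb'

theorem cover_unique_B2 [Finite P] (hu : ∀ a b c : P, a ⋖ c → b ⋖ c → a = b) {p q q' x : P}
    (hq : p ⋖ q) (hq' : p ⋖ q') (h : q ≤ x) (h' : q' ≤ x) : q = q' := by
  rcases downset_chain_B2 hu x q q' h h' with h1 | h1
  · by_contra hne
    exact hq'.2 hq.lt (lt_of_le_of_ne h1 hne)
  · by_contra hne
    exact hq.2 hq'.lt (lt_of_le_of_ne h1 (Ne.symm hne))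

theorem adm_le_B2 [Finite P] {wk : P → P → Bool} {ε : ℕ → Bool} {p : P} {f : {q // p ≤ q} → ℕ}
    (hf : Adm wk ε p f) : ∀ b a : {q // p ≤ q}, a ≤ b → f b ≤ f a := by
  have key : ∀ y : P, ∀ (hy : p ≤ y) (a : {q // p ≤ q}), (a : P) ≤ y → f ⟨y, hy⟩ ≤ f a := by
    intro y
    induction y using WellFoundedLT.induction with
    | ind y ih =>
      intro hy a hay
      rcases hay.eq_or_lt with h | h
      · have : a = ⟨y, hy⟩ := Subtype.ext h
        rw [this]
      · obtain ⟨z, haz, hzy⟩ := exists_le_covBy_of_lt h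
        have h1 := ih z hzy.lt (a.2.trans haz) a haz
        have h2 : f ⟨y, hy⟩ ≤ f ⟨z, a.2.trans haz⟩ := by
          rcases hf ⟨z, a.2.trans haz⟩ ⟨y, hy⟩ hzy with h3 | h3
          · exact h3.le
          · exact h3.1.le
        exact h2.trans h1
  intro b a hab
  exact key b.1 b.2 a hab

/-- The up-set of `p` without `p`, cut into the up-sets of the covers of `p`. -/
def back_B2 (p : P) : Option (Σ q : {q // p ⋖ q}, {x // (q : P) ≤ x}) → {x // p ≤ x}
  | none => ⟨p, le_rfl⟩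
  | some s => ⟨s.2.1, s.1.2.le.trans s.2.2⟩

theorem back_bij_B2 [Finite P] (hu : ∀ a b c : P, a ⋖ c → b ⋖ c → a = b) (p : P) :
    Function.Bijective (back_B2 p) := by
  constructor
  · intro s t hst
    rcases s with _ | ⟨⟨q, hq⟩, ⟨x, hx⟩⟩ <;> rcases t with _ | ⟨⟨q', hq'⟩, ⟨x', hx'⟩⟩
    · rfl
    · exfalso
      have h := congrArg Subtype.val hst
      simp only [back_B2] at h
      simp only at hx'
      subst h
      exact absurd hq'.lt (not_lt_of_ge hx')
    · exfalso
      have h := congrArg Subtype.val hst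
      simp only [back_B2] at h
      simp only at hx
      subst h
      exact absurd hq.lt (not_lt_of_ge hx)
    · have h := congrArg Subtype.val hst
      simp only [back_B2] at h
      simp only at hx hx'
      subst h
      have h2 := cover_unique_B2 hu hq hq' hx hx'
      subst h2
      rfl
  · rintro ⟨x, hx⟩
    rcases hx.eq_or_lt with h | h
    · subst h
      exact ⟨none, rfl⟩
    · obtain ⟨q, hpq, hqx⟩ := exists_covBy_le_of_lt h
      exact ⟨some ⟨⟨q, hpq⟩, ⟨x, hqx⟩⟩, rfl⟩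

/-- Restriction of a map on the up-set of `p` to the up-set of a cover `q`. -/
def restr_B2 {p : P} (f : {x // p ≤ x} → ℕ) (q : {q // p ⋖ q}) : {x // (q : P) ≤ x} → ℕ :=
  fun x => f ⟨x.1, q.2.le.trans x.2⟩

theorem adm_iff_B2 [Finite P] (wk : P → P → Bool) (ε : ℕ → Bool)
    (p : P) (f : {x // p ≤ x} → ℕ) :
    Adm wk ε p f ↔ (∀ q : {q // p ⋖ q}, Adm wk ε (q : P) (restr_B2 f q)) ∧
      ∀ q : {q // p ⋖ q}, f ⟨q.1, q.2.le⟩ < f ⟨p, le_rfl⟩ ∨
        (f ⟨q.1, q.2.le⟩ = f ⟨p, le_rfl⟩ ∧ wk p q = ε (f ⟨p, le_rfl⟩)) := by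
  constructor
  · intro h
    refine ⟨fun q a b hab => h _ _ hab, fun q => h ⟨p, le_rfl⟩ ⟨q.1, q.2.le⟩ q.2⟩
  · rintro ⟨h1, h2⟩ ⟨a, ha⟩ ⟨b, hb⟩ hab
    simp only at hab
    rcases ha.eq_or_lt with h | h
    · subst h
      exact h2 ⟨b, hab⟩
    · obtain ⟨q, hpq, hqa⟩ := exists_covBy_le_of_lt h
      exact h1 ⟨q, hpq⟩ ⟨a, hqa⟩ ⟨b, hqa.trans hab.le⟩ hab

theorem NS_succ [Fintype P] (hu : ∀ a b c : P, a ⋖ c → b ⋖ c → a = b) (wk : P → P → Bool) {R : Type*}
    [CommRing R] (ε : ℕ → Bool) (c : ℕ → R) (p : P) (L : ℕ) [Fintype {q // p ⋖ q}] :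
    NS wk ε c p (L + 1) = NS wk ε c p L +
      c L * ∏ q : {q // p ⋖ q}, NS wk ε c (q : P) (if wk p q = ε L then L + 1 else L) := by
  classical
  unfold NS
  rw [← Finset.sum_filter_add_sum_filter_not _ (fun f : {q // p ≤ q} → ℕ => f ⟨p, le_rfl⟩ < L)]
  congr 1
  · refine Finset.sum_congr ?_ (fun _ _ => rfl)
    ext f
    simp only [Finset.mem_filter, Fintype.mem_piFinset, Finset.mem_range]
    constructor
    · rintro ⟨⟨h1, h2⟩, h3⟩
      exact ⟨fun a => lt_of_le_of_lt (adm_le_B2 h2 a ⟨p, le_rfl⟩ a.2) h3, h2⟩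
    · rintro ⟨h1, h2⟩
      exact ⟨⟨fun a => (h1 a).trans (Nat.lt_succ_self L), h2⟩, h1 _⟩
  · rw [Finset.prod_univ_sum, Finset.mul_sum]
    let e := Equiv.ofBijective _ (back_bij_B2 hu p)
    have hnone : e none = ⟨p, le_rfl⟩ := rfl
    have hsome : ∀ (q : {q // p ⋖ q}) (x : {x // (q : P) ≤ x}),
        e (some ⟨q, x⟩) = ⟨x.1, q.2.le.trans x.2⟩ := fun q x => rfl
    let J : (∀ q : {q // p ⋖ q}, {x // (q : P) ≤ x} → ℕ) → {x // p ≤ x} → ℕ := fun g x =>
      (e.symm x).elim L (fun s => g s.1 s.2)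
    have hJp : ∀ g, J g ⟨p, le_rfl⟩ = L := by
      intro g
      simp only [J]
      rw [← hnone, Equiv.symm_apply_apply]
      rfl
    have hJr : ∀ g, restr_B2 (J g) = g := by
      intro g
      funext q x
      simp only [J, restr_B2]
      rw [← hsome, Equiv.symm_apply_apply]
      rfl
    refine Finset.sum_bij' (fun f _ => fun q => restr_B2 f q) (fun g _ => J g) ?_ ?_ ?_ ?_ ?_
    · intro f hf
      simp only [Finset.mem_filter, Fintype.mem_piFinset, Finset.mem_range] at hf ⊢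
      obtain ⟨⟨h1, h2⟩, h3⟩ := hf
      have h4 : f ⟨p, le_rfl⟩ = L := by
        have := h1 ⟨p, le_rfl⟩
        omega
      obtain ⟨h5, h6⟩ := (adm_iff_B2 wk ε p f).1 h2
      intro q
      refine ⟨fun x => ?_, h5 q⟩
      split_ifs with h
      · exact h1 _
      · have h7 := h6 q
        rw [h4] at h7
        rcases h7 with h7 | h7
        · exact lt_of_le_of_lt (adm_le_B2 h2 ⟨x.1, q.2.le.trans x.2⟩ ⟨q.1, q.2.le⟩ x.2) h7
        · exact absurd h7.2 h
    · intro g hg
      simp only [Finset.mem_filter, Fintype.mem_piFinset, Finset.mem_range] at hg ⊢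
      have h1 : ∀ x, J g x < L + 1 := by
        intro x
        obtain ⟨y, rfl⟩ := e.surjective x
        simp only [J]
        rw [Equiv.symm_apply_apply]
        rcases y with _ | ⟨q, x⟩
        · exact Nat.lt_succ_self L
        · have h2 := (hg q).1 x
          simp only [Option.elim]
          split_ifs at h2 <;> omega
      refine ⟨⟨h1, (adm_iff_B2 wk ε p _).2 ⟨fun q => ?_, fun q => ?_⟩⟩, ?_⟩
      · rw [hJr]
        exact (hg q).2
      · have h2 := (hg q).1 ⟨q.1, le_rfl⟩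
        have h3 : J g ⟨q.1, q.2.le⟩ = g q ⟨q.1, le_rfl⟩ := by
          have := congrFun (congrFun (hJr g) q) ⟨q.1, le_rfl⟩
          exact this
        rw [hJp, h3]
        split_ifs at h2 with h
        · rcases Nat.lt_succ_iff_lt_or_eq.1 h2 with h4 | h4
          · exact Or.inl h4
          · exact Or.inr ⟨h4, h⟩
        · exact Or.inl h2
      · rw [hJp]
        exact lt_irrefl L
    · intro f hf
      simp only [Finset.mem_filter, Fintype.mem_piFinset, Finset.mem_range] at hf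
      obtain ⟨⟨h1, h2⟩, h3⟩ := hf
      have h4 : f ⟨p, le_rfl⟩ = L := by
        have := h1 ⟨p, le_rfl⟩
        omega
      funext x
      obtain ⟨y, rfl⟩ := e.surjective x
      simp only [J]
      rw [Equiv.symm_apply_apply]
      rcases y with _ | ⟨q, x⟩
      · rw [hnone, h4]
        rfl
      · rw [hsome]
        rfl
    · intro g hg
      exact hJr g
    · intro f hf
      simp only [Finset.mem_filter, Fintype.mem_piFinset, Finset.mem_range] at hf
      obtain ⟨⟨h1, h2⟩, h3⟩ := hf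
      have h4 : f ⟨p, le_rfl⟩ = L := by
        have := h1 ⟨p, le_rfl⟩
        omega
      rw [← Equiv.prod_comp e, Fintype.prod_option, hnone, h4, Fintype.prod_sigma]
      rfl

end Pool.Agent.H142.RT
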