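import Pool.Agent.H142.RT.PosetDefs
import Pool.Agent.H142.RT.B1
import Pool.Agent.H142.RT.B2

open MvPolynomial

namespace Pool.Agent.H142.RT

variable {P : Type*} [PartialOrder P]









theorem NL_map [Fintype P] (wk : P → P → Bool) {R S : Type*} [CommRing R] [CommRing S] (φ : R →+* S)
    (p : P) (w : List (Bool × R)) : NL wk p (w.map fun x => (x.1, φ x.2)) = φ (NL wk p w) := by
  unfold NL
  rw [← NS_map wk φ, List.length_map]
  have key : ∀ i, i < w.length → (w.map fun x => (x.1, φ x.2)).reverse.getD i (true, 0) =
      ((w.reverse.getD i (true, 0)).1, φ (w.reverse.getD i (true, 0)).2) := by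
    intro i hi
    have h1 : i < w.reverse.length := by simpa using hi
    rw [← List.map_reverse, List.getD_eq_getElem _ _ (by simpa using hi), List.getD_eq_getElem _ _ h1,
      List.getElem_map]
  refine NS_congr wk p (fun i hi => ?_) (fun i hi => ?_)
  · unfold sg; rw [key i hi]
  · unfold vl; rw [key i hi]

theorem sg_cons_lt_B3 {R : Type*} [Zero R] (x : Bool × R) (w : List (Bool × R)) {i : ℕ} (hi : i < w.length) :
    (x :: w).reverse.getD i (true, 0) = w.reverse.getD i (true, 0) := by
  rw [List.reverse_cons, List.getD_append _ _ _ _ (by simpa using hi)]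

theorem sg_cons_eq_B3 {R : Type*} [Zero R] (x : Bool × R) (w : List (Bool × R)) :
    (x :: w).reverse.getD w.length (true, 0) = x := by
  rw [List.reverse_cons, List.getD_append_right _ _ _ _ (by simp)]
  simp

theorem NL_nil_B3 [Fintype P] (wk : P → P → Bool) {R : Type*} [CommRing R] (p : P) :
    NL wk p ([] : List (Bool × R)) = 0 := NS_zero wk _ _ p

theorem NS_cons_B3 [Fintype P] (wk : P → P → Bool) {R : Type*} [CommRing R] (p : P) (x : Bool × R)
    (w : List (Bool × R)) : NS wk (sg (x :: w)) (vl (x :: w)) p w.length = NL wk p w := by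
  refine NS_congr wk p (fun i hi => ?_) (fun i hi => ?_)
  · unfold sg; rw [sg_cons_lt_B3 x w hi]
  · unfold vl; rw [sg_cons_lt_B3 x w hi]

theorem NL_cons_B3 [Fintype P] (hu : ∀ a b c : P, a ⋖ c → b ⋖ c → a = b) (wk : P → P → Bool) {R : Type*}
    [CommRing R] (p : P) (x : Bool × R) (w : List (Bool × R)) [Fintype {q // p ⋖ q}] :
    NL wk p (x :: w) = NL wk p w +
      x.2 * ∏ q : {q // p ⋖ q}, NL wk (q : P) (if wk p q = x.1 then x :: w else w) := by
  have h1 : NL wk p (x :: w) = NS wk (sg (x :: w)) (vl (x :: w)) p (w.length + 1) := rfl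
  have hs : sg (x :: w) w.length = x.1 := by unfold sg; rw [sg_cons_eq_B3]
  have hv : vl (x :: w) w.length = x.2 := by unfold vl; rw [sg_cons_eq_B3]
  rw [h1, NS_succ hu, NS_cons_B3, hs, hv]
  congr 2
  refine Finset.prod_congr rfl fun q _ => ?_
  by_cases hq : wk p q = x.1
  · rw [if_pos hq, if_pos hq]; rfl
  · rw [if_neg hq, if_neg hq, NS_cons_B3]

theorem NL_insert_zero [Fintype P] (hu : ∀ a b c : P, a ⋖ c → b ⋖ c → a = b) (wk : P → P → Bool) {R : Type*}
    [CommRing R] (p : P) (u v : List (Bool × R)) (e : Bool) : NL wk p (u ++ (e, 0) :: v) = NL wk p (u ++ v) := by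
  classical
  induction p using WellFoundedGT.induction generalizing u with
  | ind p ih =>
    induction u with
    | nil => rw [List.nil_append, List.nil_append, NL_cons_B3 hu, zero_mul, add_zero]
    | cons x u ihu =>
      rw [List.cons_append, List.cons_append, NL_cons_B3 hu, NL_cons_B3 hu, ihu]
      congr 2
      refine Finset.prod_congr rfl fun q _ => ?_
      by_cases hq : wk p q = x.1
      · rw [if_pos hq, if_pos hq, ← List.cons_append, ← List.cons_append]
        exact ih q q.2.lt (x :: u)
      · rw [if_neg hq, if_neg hq]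
        exact ih q q.2.lt u

theorem NL_canc [Fintype P] (hu : ∀ a b c : P, a ⋖ c → b ⋖ c → a = b) (wk : P → P → Bool) {R : Type*}
    [CommRing R] (p : P) (u v : List (Bool × R)) (e : Bool) (x : R) :
    NL wk p (u ++ (e, x) :: (!e, -x) :: v) = NL wk p (u ++ v) := by
  classical
  induction p using WellFoundedGT.induction generalizing u with
  | ind p ih =>
    induction u with
    | nil =>
      rw [List.nil_append, List.nil_append, NL_cons_B3 hu, NL_cons_B3 hu]
      have h : ∏ q : {q // p ⋖ q}, NL wk (q : P) (if wk p q = ((e, x) : Bool × R).1 then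
            ((e, x) : Bool × R) :: (!e, -x) :: v else (!e, -x) :: v) =
          ∏ q : {q // p ⋖ q}, NL wk (q : P) (if wk p q = ((!e, -x) : Bool × R).1 then (!e, -x) :: v else v) := by
        refine Finset.prod_congr rfl fun q _ => ?_
        by_cases hq : wk p q = e
        · have hq' : ¬ wk p q = !e := by rw [hq]; cases e <;> simp
          rw [if_pos hq, if_neg hq']
          exact ih q q.2.lt []
        · have hq' : wk p q = !e := by
            revert hq; cases wk p q <;> cases e <;> simp
          rw [if_neg hq, if_pos hq']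
      rw [h]
      ring
    | cons y u ihu =>
      rw [List.cons_append, List.cons_append, NL_cons_B3 hu, NL_cons_B3 hu, ihu]
      congr 2
      refine Finset.prod_congr rfl fun q _ => ?_
      by_cases hq : wk p q = y.1
      · rw [if_pos hq, if_pos hq, ← List.cons_append, ← List.cons_append]
        exact ih q q.2.lt (y :: u)
      · rw [if_neg hq, if_neg hq]
        exact ih q q.2.lt u

end Pool.Agent.H142.RT
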