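import Pool.Agent.H142.RT.PosetDefs

open MvPolynomial

namespace Pool.Agent.H142.RT

/-- mapping the values of a word -/
def mp_B4 {R S : Type} [CommRing R] [CommRing S] (φ : R →+* S) (w : List (Bool × R)) :
    List (Bool × S) := w.map fun x => (x.1, φ x.2)

theorem mp_append_B4 {R S : Type} [CommRing R] [CommRing S] (φ : R →+* S) (u v : List (Bool × R)) :
    mp_B4 φ (u ++ v) = mp_B4 φ u ++ mp_B4 φ v := by
  unfold mp_B4
  exact List.map_append

theorem mp_cons_B4 {R S : Type} [CommRing R] [CommRing S] (φ : R →+* S) (e : Bool) (c : R)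
    (v : List (Bool × R)) : mp_B4 φ ((e, c) :: v) = (e, φ c) :: mp_B4 φ v := rfl

theorem mp_comp_B4 {R S T : Type} [CommRing R] [CommRing S] [CommRing T] (φ : R →+* S)
    (ψ : S →+* T) (v : List (Bool × R)) : mp_B4 ψ (mp_B4 φ v) = mp_B4 (ψ.comp φ) v := by
  unfold mp_B4
  rw [List.map_map]
  rfl

theorem mp_id_B4 {R : Type} [CommRing R] (φ : R →+* R) (h : φ = RingHom.id R)
    (v : List (Bool × R)) : mp_B4 φ v = v := by
  subst h
  unfold mp_B4
  simp

theorem mp_len_B4 {R S : Type} [CommRing R] [CommRing S] (φ : R →+* S) (v : List (Bool × R)) :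
    (mp_B4 φ v).length = v.length := by
  unfold mp_B4
  simp

theorem mp_plus_B4 {R S : Type} [CommRing R] [CommRing S] (φ : R →+* S) (v : List (Bool × R))
    (h : ∀ x ∈ v, x.1 = true) : ∀ x ∈ mp_B4 φ v, x.1 = true := by
  intro x hx
  unfold mp_B4 at hx
  rw [List.mem_map] at hx
  obtain ⟨y, hy, rfl⟩ := hx
  exact h y hy

theorem e1_B4 (R : Type) [CommRing R] : (Polynomial.evalRingHom (-(Polynomial.X : Polynomial R))).comp
    ((Polynomial.C : Polynomial R →+* Polynomial (Polynomial R)).comp
      (Polynomial.C : R →+* Polynomial R)) = Polynomial.C := by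
  ext r
  simp

theorem e2_B4 (R : Type) [CommRing R] : Polynomial.evalRingHom (-(Polynomial.X : Polynomial R))
    (Polynomial.C (Polynomial.X : Polynomial R)) = Polynomial.X := by
  simp

theorem e3_B4 (R : Type) [CommRing R] : Polynomial.evalRingHom (-(Polynomial.X : Polynomial R))
    (Polynomial.X : Polynomial (Polynomial R)) = -Polynomial.X := by
  simp

theorem f1_B4 (R : Type) [CommRing R] : (Polynomial.mapRingHom (Polynomial.evalRingHom (0 : R))).comp
    ((Polynomial.C : Polynomial R →+* Polynomial (Polynomial R)).comp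
      (Polynomial.C : R →+* Polynomial R)) = Polynomial.C := by
  ext r
  simp

theorem f2_B4 (R : Type) [CommRing R] : Polynomial.mapRingHom (Polynomial.evalRingHom (0 : R))
    (Polynomial.C (Polynomial.X : Polynomial R)) = 0 := by
  simp

theorem f3_B4 (R : Type) [CommRing R] : Polynomial.mapRingHom (Polynomial.evalRingHom (0 : R))
    (Polynomial.X : Polynomial (Polynomial R)) = Polynomial.X := by
  simp

theorem h3_B4 (R : Type) [CommRing R] : (Polynomial.evalRingHom (0 : R)).comp
    (Polynomial.evalRingHom (0 : Polynomial R)) =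
      (Polynomial.evalRingHom (0 : R)).comp (Polynomial.evalRingHom (-(Polynomial.X : Polynomial R))) := by
  apply Polynomial.ringHom_ext
  · intro a
    simp
  · simp

theorem c2_B4 (R : Type) [CommRing R] (z : R) :
    (Polynomial.evalRingHom z).comp (Polynomial.C : R →+* Polynomial R) = RingHom.id R := by
  ext r
  simp

theorem c3_B4 (R : Type) [CommRing R] (z : R) :
    Polynomial.evalRingHom z (Polynomial.X : Polynomial R) = z := by
  simp

theorem step_B4 (D : ∀ (R : Type) [CommRing R], List (Bool × R) → R)
    (nat : ∀ (R S : Type) [CommRing R] [CommRing S] (φ : R →+* S) (w : List (Bool × R)),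
      D S (mp_B4 φ w) = φ (D R w))
    (zero : ∀ (R : Type) [CommRing R] (u v : List (Bool × R)) (e : Bool),
      D R (u ++ (e, 0) :: v) = D R (u ++ v))
    (canc : ∀ (R : Type) [CommRing R] (u v : List (Bool × R)) (x : R),
      D R (u ++ (true, x) :: (false, -x) :: v) = D R (u ++ v))
    (n : ℕ) (hn : ∀ (R : Type) [CommRing R] (u v : List (Bool × R)), (∀ x ∈ u, x.1 = true) →
      v.length = n → D R (u ++ v) = 0) (m : ℕ) :
    ∀ (R : Type) [CommRing R] (u v : List (Bool × R)) (z : R), (∀ x ∈ u, x.1 = true) →
      v.length = n → z ^ m ∣ D R (u ++ (false, z) :: v) := by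
  induction m with
  | zero => intro R _ u v z hu hv; rw [pow_zero]; exact one_dvd _
  | succ m ih =>
    intro R _ u v z hu hv
    obtain ⟨C2, hC2⟩ : ∃ C2 : R →+* Polynomial (Polynomial R),
        C2 = (Polynomial.C : Polynomial R →+* Polynomial (Polynomial R)).comp
          (Polynomial.C : R →+* Polynomial R) := ⟨_, rfl⟩
    have h1 : (Polynomial.X : Polynomial (Polynomial R)) ^ m ∣ D (Polynomial (Polynomial R))
        ((mp_B4 C2 u ++ [(true, (Polynomial.C (Polynomial.X : Polynomial R)))]) ++
        (false, (Polynomial.X : Polynomial (Polynomial R))) :: mp_B4 C2 v) := by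
      apply ih (Polynomial (Polynomial R))
      · intro x hx
        rw [List.mem_append] at hx
        rcases hx with hx | hx
        · exact mp_plus_B4 C2 u hu x hx
        · rw [List.mem_singleton] at hx
          rw [hx]
      · rw [mp_len_B4, hv]
    obtain ⟨g, hg⟩ := h1
    rw [List.append_assoc, List.singleton_append] at hg
    -- first specialisation
    have a1 := nat (Polynomial (Polynomial R)) (Polynomial R)
      (Polynomial.evalRingHom (-(Polynomial.X : Polynomial R)))
      (mp_B4 C2 u ++ (true, (Polynomial.C (Polynomial.X : Polynomial R))) ::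
        (false, (Polynomial.X : Polynomial (Polynomial R))) :: mp_B4 C2 v)
    rw [hg, mp_append_B4, mp_cons_B4, mp_cons_B4, mp_comp_B4, mp_comp_B4, hC2, e1_B4, e2_B4,
      e3_B4, canc, hn (Polynomial R) _ _ (mp_plus_B4 _ u hu) (by rw [mp_len_B4, hv]), map_mul,
      map_pow, e3_B4] at a1
    have a2 : Polynomial.evalRingHom (-(Polynomial.X : Polynomial R)) g = 0 := by
      have h2 : (Polynomial.X : Polynomial R) ^ m *
          ((-1) ^ m * Polynomial.evalRingHom (-(Polynomial.X : Polynomial R)) g) = 0 := by
        rw [neg_pow] at a1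
        rw [← mul_assoc, mul_comm ((Polynomial.X : Polynomial R) ^ m), ← a1]
      have h3 := (Polynomial.isRegular_X_pow (R := R) m).left
      have h4 : (-1 : Polynomial R) ^ m *
          Polynomial.evalRingHom (-(Polynomial.X : Polynomial R)) g = 0 := by
        apply h3
        simp only [mul_zero]
        exact h2
      have h5 : (-1 : Polynomial R) ^ m * ((-1 : Polynomial R) ^ m *
          Polynomial.evalRingHom (-(Polynomial.X : Polynomial R)) g) = 0 := by rw [h4, mul_zero]
      rw [← mul_assoc, ← mul_pow, neg_one_mul, neg_neg, one_pow, one_mul] at h5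
      exact h5
    -- second specialisation
    have b1 := nat (Polynomial (Polynomial R)) (Polynomial R)
      (Polynomial.mapRingHom (Polynomial.evalRingHom (0 : R)))
      (mp_B4 C2 u ++ (true, (Polynomial.C (Polynomial.X : Polynomial R))) ::
        (false, (Polynomial.X : Polynomial (Polynomial R))) :: mp_B4 C2 v)
    rw [hg, mp_append_B4, mp_cons_B4, mp_cons_B4, mp_comp_B4, mp_comp_B4, hC2, f1_B4, f2_B4,
      f3_B4, zero, map_mul, map_pow, f3_B4] at b1
    have b2 : (Polynomial.X : Polynomial R) ∣
        Polynomial.mapRingHom (Polynomial.evalRingHom (0 : R)) g := by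
      rw [Polynomial.X_dvd_iff]
      have h2 : (Polynomial.mapRingHom (Polynomial.evalRingHom (0 : R)) g).coeff 0 =
          Polynomial.eval (0 : R) (Polynomial.eval (0 : Polynomial R) g) := by
        rw [Polynomial.coe_mapRingHom, Polynomial.coeff_map, Polynomial.coeff_zero_eq_eval_zero]
        rfl
      have h4 := congrArg (fun φ : Polynomial (Polynomial R) →+* R => φ g) (h3_B4 R)
      simp only [RingHom.comp_apply, a2, map_zero] at h4
      rw [h2]
      exact h4
    have b3 : (Polynomial.X : Polynomial R) ^ (m + 1) ∣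
        D (Polynomial R) (mp_B4 (Polynomial.C : R →+* Polynomial R) u ++
          (false, (Polynomial.X : Polynomial R)) :: mp_B4 (Polynomial.C : R →+* Polynomial R) v) := by
      rw [b1, pow_succ]
      exact mul_dvd_mul_left _ b2
    have c1 := nat (Polynomial R) R (Polynomial.evalRingHom z)
      (mp_B4 (Polynomial.C : R →+* Polynomial R) u ++ (false, (Polynomial.X : Polynomial R)) ::
        mp_B4 (Polynomial.C : R →+* Polynomial R) v)
    rw [mp_append_B4, mp_cons_B4, mp_comp_B4, mp_comp_B4, mp_id_B4 _ (c2_B4 R z),
      mp_id_B4 _ (c2_B4 R z), c3_B4] at c1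
    rw [c1]
    have c4 := map_dvd (Polynomial.evalRingHom z) b3
    rw [map_pow, c3_B4] at c4
    exact c4

theorem all_B4 (D : ∀ (R : Type) [CommRing R], List (Bool × R) → R)
    (nat : ∀ (R S : Type) [CommRing R] [CommRing S] (φ : R →+* S) (w : List (Bool × R)),
      D S (mp_B4 φ w) = φ (D R w))
    (zero : ∀ (R : Type) [CommRing R] (u v : List (Bool × R)) (e : Bool),
      D R (u ++ (e, 0) :: v) = D R (u ++ v))
    (canc : ∀ (R : Type) [CommRing R] (u v : List (Bool × R)) (x : R),
      D R (u ++ (true, x) :: (false, -x) :: v) = D R (u ++ v))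
    (plus : ∀ (R : Type) [CommRing R] (w : List (Bool × R)), (∀ x ∈ w, x.1 = true) → D R w = 0)
    (n : ℕ) : ∀ (R : Type) [CommRing R] (u v : List (Bool × R)), (∀ x ∈ u, x.1 = true) →
      v.length = n → D R (u ++ v) = 0 := by
  induction n with
  | zero =>
    intro R _ u v hu hv
    rw [List.length_eq_zero_iff] at hv
    rw [hv, List.append_nil]
    exact plus R u hu
  | succ n ih =>
    intro R _ u v hu hv
    match v, hv with
    | (e, z) :: v', hv =>
      have hv' : v'.length = n := by
        rw [List.length_cons] at hv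
        omega
      cases e with
      | true =>
        have h1 : u ++ (true, z) :: v' = (u ++ [(true, z)]) ++ v' := by simp
        rw [h1]
        apply ih R _ _ _ hv'
        intro x hx
        rw [List.mem_append] at hx
        rcases hx with hx | hx
        · exact hu x hx
        · rw [List.mem_singleton] at hx
          rw [hx]
      | false =>
        have h1 : D (Polynomial R) (mp_B4 (Polynomial.C : R →+* Polynomial R) u ++
            (false, (Polynomial.X : Polynomial R)) ::
              mp_B4 (Polynomial.C : R →+* Polynomial R) v') = 0 := by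
          refine Polynomial.ext fun d => ?_
          have h2 := step_B4 D nat zero canc n ih (d + 1) (Polynomial R)
            (mp_B4 (Polynomial.C : R →+* Polynomial R) u)
            (mp_B4 (Polynomial.C : R →+* Polynomial R) v')
            (Polynomial.X : Polynomial R) (mp_plus_B4 _ u hu) (by rw [mp_len_B4, hv'])
          rw [Polynomial.X_pow_dvd_iff] at h2
          rw [h2 d (Nat.lt_succ_self d), Polynomial.coeff_zero]
        have c1 := nat (Polynomial R) R (Polynomial.evalRingHom z)
          (mp_B4 (Polynomial.C : R →+* Polynomial R) u ++ (false, (Polynomial.X : Polynomial R)) ::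
            mp_B4 (Polynomial.C : R →+* Polynomial R) v')
        rw [mp_append_B4, mp_cons_B4, mp_comp_B4, mp_comp_B4, mp_id_B4 _ (c2_B4 R z),
          mp_id_B4 _ (c2_B4 R z), c3_B4, h1, map_zero] at c1
        exact c1

theorem words_zero (D : ∀ (R : Type) [CommRing R], List (Bool × R) → R)
    (nat : ∀ (R S : Type) [CommRing R] [CommRing S] (φ : R →+* S) (w : List (Bool × R)),
      D S (w.map fun x => (x.1, φ x.2)) = φ (D R w))
    (zero : ∀ (R : Type) [CommRing R] (u v : List (Bool × R)) (e : Bool),
      D R (u ++ (e, 0) :: v) = D R (u ++ v))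
    (canc : ∀ (R : Type) [CommRing R] (u v : List (Bool × R)) (x : R),
      D R (u ++ (true, x) :: (false, -x) :: v) = D R (u ++ v))
    (plus : ∀ (R : Type) [CommRing R] (w : List (Bool × R)), (∀ x ∈ w, x.1 = true) → D R w = 0)
    (R : Type) [CommRing R] (w : List (Bool × R)) : D R w = 0 :=
  all_B4 D nat zero canc plus w.length R [] w (by simp) rfl

end Pool.Agent.H142.RT
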