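import Pool.Agent.H142.RT.PosetDefs

open MvPolynomial

namespace Pool.Agent.H142.RT

/-- the weight of a content -/
noncomputable def wt_B5 {R : Type*} [CommRing R] (c : ℕ → R) (L : ℕ) (μ : ℕ+ →₀ ℕ) : R :=
  μ.prod fun k e => c (L - (k : ℕ)) ^ e

/-- the values allowed for a word with `L` letters -/
def vals_B5 (L : ℕ) : Finset ℕ+ := (Finset.range L).image Nat.succPNat

theorem mem_vals_B5 {L : ℕ} {k : ℕ+} : k ∈ vals_B5 L ↔ (k : ℕ) ≤ L := by
  rw [vals_B5, Finset.mem_image]
  constructor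
  · rintro ⟨i, hi, rfl⟩
    rw [Finset.mem_range] at hi
    rw [Nat.succPNat_coe]
    omega
  · intro h
    refine ⟨(k : ℕ) - 1, ?_, ?_⟩
    · rw [Finset.mem_range]
      have := k.pos
      omega
    · apply PNat.coe_injective
      rw [Nat.succPNat_coe]
      have := k.pos
      omega

theorem prod_B5 {P : Type*} [Fintype P] {R : Type*} [CommRing R] (c : ℕ → R) (L : ℕ)
    (F : P → ℕ+) : ∏ x, c (L - (F x : ℕ)) = wt_B5 c L (content F) := by
  rw [wt_B5, content, ← Finsupp.prod_finsetSum_index]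
  · refine Finset.prod_congr rfl fun x _ => ?_
    rw [Finsupp.prod_single_index]
    · rw [pow_one]
    · rw [pow_zero]
  · intro k
    rw [pow_zero]
  · intro k a b
    rw [pow_add]

theorem content_apply_B5 {P : Type*} [Fintype P] (F : P → ℕ+) (k : ℕ+) :
    content F k = ∑ x, if F x = k then 1 else 0 := by
  rw [content, Finsupp.finsetSum_apply]
  refine Finset.sum_congr rfl fun x _ => ?_
  rw [Finsupp.single_apply]

theorem content_ne_B5 {P : Type*} [Fintype P] (F : P → ℕ+) (x : P) : content F (F x) ≠ 0 := by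
  rw [content_apply_B5]
  intro h
  rw [Finset.sum_eq_zero_iff] at h
  have := h x (Finset.mem_univ x)
  simp at this

theorem content_zero_B5 {P : Type*} [Fintype P] (F : P → ℕ+) (k : ℕ+) (h : ∀ x, F x ≠ k) :
    content F k = 0 := by
  rw [content_apply_B5]
  refine Finset.sum_eq_zero fun x _ => ?_
  rw [if_neg (h x)]

open Classical in
/-- the sum over maps defined on all of `P` -/
theorem step1_B5 {P : Type*} [PartialOrder P] [Fintype P] {n : ℕ} (ω : P ≃ Fin n) (p : P)
    (hp : ∀ x, p ≤ x) {R : Type*} [CommRing R] (c : ℕ → R) (L : ℕ) :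
    NS (fun a b => decide (ω a < ω b)) (fun _ => true) c p L =
      ∑ F ∈ (Fintype.piFinset fun _ : P => vals_B5 L).filter (IsPPartition ω),
        ∏ x, c (L - (F x : ℕ)) := by
  rw [NS]
  refine Finset.sum_bij' (fun f _ => fun x => Nat.toPNat' (L - f ⟨x, hp x⟩))
    (fun F _ => fun y => L - (F y.1 : ℕ)) ?_ ?_ ?_ ?_ ?_
  · intro f hf
    rw [Finset.mem_filter, Fintype.mem_piFinset] at hf ⊢
    obtain ⟨h1, h2⟩ := hf
    have hlt : ∀ y, f y < L := fun y => Finset.mem_range.1 (h1 y)
    have hco : ∀ x, ((Nat.toPNat' (L - f ⟨x, hp x⟩) : ℕ+) : ℕ) = L - f ⟨x, hp x⟩ := by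
      intro x
      rw [Nat.toPNat'_coe, if_pos]
      have := hlt ⟨x, hp x⟩
      omega
    refine ⟨fun x => ?_, ?_⟩
    · rw [mem_vals_B5, hco]
      omega
    · intro a b hab
      have h3 := h2 ⟨a, hp a⟩ ⟨b, hp b⟩ hab
      have h4 := hlt ⟨a, hp a⟩
      have h5 := hlt ⟨b, hp b⟩
      refine ⟨fun h => ?_, fun h => ?_⟩
      · rw [← PNat.coe_le_coe, hco, hco]
        rcases h3 with h3 | h3
        · omega
        · omega
      · rw [← PNat.coe_lt_coe, hco, hco]
        rcases h3 with h3 | ⟨-, h3⟩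
        · omega
        · simp only [decide_eq_true_eq] at h3
          exact absurd h3 (not_lt.2 h.le)
  · intro F hF
    rw [Finset.mem_filter, Fintype.mem_piFinset] at hF ⊢
    obtain ⟨h1, h2⟩ := hF
    have hle : ∀ x, (F x : ℕ) ≤ L := fun x => mem_vals_B5.1 (h1 x)
    refine ⟨fun y => ?_, ?_⟩
    · rw [Finset.mem_range]
      have := hle y.1
      have := (F y.1).pos
      omega
    · intro a b hab
      obtain ⟨h3, h4⟩ := h2 a.1 b.1 hab
      have h5 := hle a.1
      have h6 := hle b.1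
      have h7 := (F a.1).pos
      have h8 := (F b.1).pos
      have hne : ω a.1 ≠ ω b.1 := fun h => hab.ne (ω.injective h)
      rcases lt_or_gt_of_ne hne with h | h
      · have h9 := h3 h
        rw [← PNat.coe_le_coe] at h9
        show L - (F b.1 : ℕ) < L - (F a.1 : ℕ) ∨
          (L - (F b.1 : ℕ) = L - (F a.1 : ℕ) ∧ decide (ω a.1 < ω b.1) = true)
        rcases Nat.lt_or_ge (L - (F b.1 : ℕ)) (L - (F a.1 : ℕ)) with h10 | h10
        · exact Or.inl h10
        · refine Or.inr ⟨by omega, ?_⟩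
          simp only [decide_eq_true_eq]
          exact h
      · have h9 := h4 h
        rw [← PNat.coe_lt_coe] at h9
        left
        show L - (F b.1 : ℕ) < L - (F a.1 : ℕ)
        omega
  · intro f hf
    rw [Finset.mem_filter, Fintype.mem_piFinset] at hf
    funext y
    have hy : f y < L := Finset.mem_range.1 (hf.1 y)
    have e : (⟨y.1, hp y.1⟩ : {x // p ≤ x}) = y := rfl
    simp only [e]
    rw [Nat.toPNat'_coe, if_pos (by omega)]
    omega
  · intro F hF
    rw [Finset.mem_filter, Fintype.mem_piFinset] at hF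
    funext x
    have hx : (F x : ℕ) ≤ L := mem_vals_B5.1 (hF.1 x)
    have hx' := (F x).pos
    apply PNat.coe_injective
    show ((Nat.toPNat' (L - (L - (F x : ℕ))) : ℕ+) : ℕ) = F x
    rw [Nat.toPNat'_coe, if_pos (by omega)]
    omega
  · intro f hf
    rw [Finset.mem_filter, Fintype.mem_piFinset] at hf
    refine Fintype.prod_equiv (Equiv.subtypeUnivEquiv hp) _ _ fun y => ?_
    have hy : f y < L := Finset.mem_range.1 (hf.1 y)
    show c (f y) = c (L - ((Nat.toPNat' (L - f y) : ℕ+) : ℕ))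
    rw [Nat.toPNat'_coe, if_pos (by omega)]
    congr 1
    omega

open Classical in
/-- the sum over the contents -/
theorem step2_B5 {P : Type*} [PartialOrder P] [Fintype P] {n : ℕ} (ω : P ≃ Fin n)
    {R : Type*} [CommRing R] (c : ℕ → R) (L : ℕ) (U : Finset (ℕ+ →₀ ℕ))
    (hU : ∀ F : P → ℕ+, (∀ x, F x ∈ vals_B5 L) → content F ∈ U)
    (hU' : ∀ μ ∈ U, ∀ k, μ k ≠ 0 → k ∈ vals_B5 L) :
    ∑ F ∈ (Fintype.piFinset fun _ : P => vals_B5 L).filter (IsPPartition ω),
        ∏ x, c (L - (F x : ℕ)) =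
      ∑ μ ∈ U, (((enumerator ω μ : ℤ)) : R) * wt_B5 c L μ := by
  rw [← Finset.sum_fiberwise_of_maps_to (g := fun F : P → ℕ+ => content F) (t := U)]
  · refine Finset.sum_congr rfl fun μ hμ => ?_
    have h1 : ∀ F ∈ ((Fintype.piFinset fun _ : P => vals_B5 L).filter (IsPPartition ω)).filter
        (fun F => content F = μ), ∏ x, c (L - (F x : ℕ)) = wt_B5 c L μ := by
      intro F hF
      rw [Finset.mem_filter] at hF
      rw [prod_B5, hF.2]
    rw [Finset.sum_congr rfl h1, Finset.sum_const, nsmul_eq_mul]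
    congr 1
    have h2 : Nat.card {f : P → ℕ+ // IsPPartition ω f ∧ content f = μ} =
        (((Fintype.piFinset fun _ : P => vals_B5 L).filter (IsPPartition ω)).filter
          (fun F => content F = μ)).card := by
      refine Nat.subtype_card _ fun F => ?_
      rw [Finset.mem_filter, Finset.mem_filter, Fintype.mem_piFinset]
      refine ⟨fun h => ⟨h.1.2, h.2⟩, fun h => ⟨⟨fun x => ?_, h.1⟩, h.2⟩⟩
      refine hU' μ hμ _ ?_
      rw [← h.2]
      exact content_ne_B5 F x
    show _ = (((Nat.card {f : P → ℕ+ // IsPPartition ω f ∧ content f = μ} : ℤ)) : R)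
    rw [h2]
    push_cast
    rfl
  · intro F hF
    rw [Finset.mem_filter, Fintype.mem_piFinset] at hF
    exact hU F hF.1

theorem plus_of_enumerator {P Q : Type*} [PartialOrder P] [Fintype P] [PartialOrder Q] [Fintype Q]
    {n m : ℕ} (ω : P ≃ Fin n) (τ : Q ≃ Fin m) (p : P) (hp : ∀ x, p ≤ x) (q : Q) (hq : ∀ y, q ≤ y)
    (h : enumerator ω = enumerator τ) {R : Type*} [CommRing R] (c : ℕ → R) (L : ℕ) :
    NS (fun a b => decide (ω a < ω b)) (fun _ => true) c p L =
      NS (fun a b => decide (τ a < τ b)) (fun _ => true) c q L := by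
  classical
  set U : Finset (ℕ+ →₀ ℕ) :=
    (Fintype.piFinset fun _ : P => vals_B5 L).image content ∪
      (Fintype.piFinset fun _ : Q => vals_B5 L).image content with hUd
  have hU' : ∀ μ ∈ U, ∀ k, μ k ≠ 0 → k ∈ vals_B5 L := by
    intro μ hμ k hk
    rw [hUd, Finset.mem_union, Finset.mem_image, Finset.mem_image] at hμ
    by_contra hcon
    rcases hμ with ⟨F, hF, rfl⟩ | ⟨F, hF, rfl⟩
    · rw [Fintype.mem_piFinset] at hF
      exact hk (content_zero_B5 F k fun x hx => hcon (hx ▸ hF x))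
    · rw [Fintype.mem_piFinset] at hF
      exact hk (content_zero_B5 F k fun x hx => hcon (hx ▸ hF x))
  have hP : ∀ F : P → ℕ+, (∀ x, F x ∈ vals_B5 L) → content F ∈ U := fun F hF =>
    Finset.mem_union_left _ (Finset.mem_image_of_mem _ (Fintype.mem_piFinset.2 hF))
  have hQ : ∀ F : Q → ℕ+, (∀ x, F x ∈ vals_B5 L) → content F ∈ U := fun F hF =>
    Finset.mem_union_right _ (Finset.mem_image_of_mem _ (Fintype.mem_piFinset.2 hF))
  rw [step1_B5 ω p hp, step1_B5 τ q hq, step2_B5 ω c L U hP hU', step2_B5 τ c L U hQ hU', h]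

end Pool.Agent.H142.RT
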