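import Pool.Agent.H142.RT.PosetDefs

open MvPolynomial

namespace Pool.Agent.H142.RT

theorem unique_lower_cover {P : Type*} [PartialOrder P] [Finite P] (h : IsRootedTree P) :
    ∀ a b c : P, a ⋖ c → b ⋖ c → a = b := by
  classical
  intro a b c hac hbc
  by_contra hab
  obtain ⟨ht, r, hr, hru⟩ := h
  let _ : Fintype P := Fintype.ofFinite P
  have hcover : ∀ x : P, x ≠ r → ∃ y, y ⋖ x := by
    intro x hx
    have hx' : ¬ IsMin x := fun hm => hx (hru x hm)
    obtain ⟨y, hy⟩ := not_isMin_iff.1 hx'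
    obtain ⟨z, -, hz⟩ := exists_le_covBy_of_lt hy
    exact ⟨z, hz⟩
  have hcr : c ≠ r := fun hc => not_isMin_iff.2 ⟨a, hac.lt⟩ (hc ▸ hr)
  -- the chosen lower covers
  let g : P → P := fun x => if hx : x = r then x else Classical.choose (hcover x hx)
  have hg : ∀ x, x ≠ r → g x ⋖ x := by
    intro x hx
    simp only [g, dif_neg hx]
    exact Classical.choose_spec (hcover x hx)
  -- a lower cover of c other than the chosen one
  obtain ⟨d, hdc, hd⟩ : ∃ d, d ⋖ c ∧ d ≠ g c := by
    by_cases h1 : a = g c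
    · exact ⟨b, hbc, fun h2 => hab (h1.trans h2.symm)⟩
    · exact ⟨a, hac, h1⟩
  have hcard := ht.card_edgeFinset
  let F : P → Sym2 P := fun x => if x = r then s(d, c) else s(g x, x)
  have hF : ∀ x, F x ∈ (SimpleGraph.hasse P).edgeFinset := by
    intro x
    rw [SimpleGraph.mem_edgeFinset]
    by_cases hx : x = r
    · simp only [F, if_pos hx, SimpleGraph.mem_edgeSet, SimpleGraph.hasse_adj]
      exact Or.inl hdc
    · simp only [F, if_neg hx, SimpleGraph.mem_edgeSet, SimpleGraph.hasse_adj]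
      exact Or.inl (hg x hx)
  have hkey : ∀ x y u v : P, u ⋖ x → v ⋖ y → s(u, x) = s(v, y) → x = y ∧ u = v := by
    intro x y u v hux hvy he
    rw [Sym2.eq_iff] at he
    rcases he with ⟨h1, h2⟩ | ⟨h1, h2⟩
    · exact ⟨h2, h1⟩
    · exfalso
      have h3 := hux.lt
      have h4 := hvy.lt
      rw [h1, h2] at h3
      exact lt_asymm h3 h4
  have hinj : Function.Injective F := by
    intro x y hxy
    by_cases hx : x = r <;> by_cases hy : y = r
    · rw [hx, hy]
    · simp only [F, if_pos hx, if_neg hy] at hxy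
      obtain ⟨h1, h2⟩ := hkey _ _ _ _ hdc (hg y hy) hxy
      exact absurd (h1 ▸ h2) hd
    · simp only [F, if_neg hx, if_pos hy] at hxy
      obtain ⟨h1, h2⟩ := hkey _ _ _ _ (hg x hx) hdc hxy
      exact absurd (h1 ▸ h2.symm) hd
    · simp only [F, if_neg hx, if_neg hy] at hxy
      exact (hkey _ _ _ _ (hg x hx) (hg y hy) hxy).1
  have hle : Fintype.card P ≤ (SimpleGraph.hasse P).edgeFinset.card := by
    rw [← Finset.card_univ]
    exact Finset.card_le_card_of_injOn F (fun x _ => hF x) (fun x _ y _ hxy => hinj hxy)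
  omega

end Pool.Agent.H142.RT
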