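import Pool.Agent.H142.RT.PosetDefs

open MvPolynomial

namespace Pool.Agent.H142.RT

/-- principal down-sets are chains -/
theorem chain_B7 {P : Type*} [PartialOrder P] [Finite P]
    (hP : ∀ a b c : P, a ⋖ c → b ⋖ c → a = b) (a : P) : ∀ x y : P, x ≤ a → y ≤ a → x ≤ y ∨ y ≤ x := by
  have : WellFoundedLT P := Finite.to_wellFoundedLT
  have : WellFoundedGT P := Finite.to_wellFoundedGT
  induction a using WellFoundedLT.induction with
  | ind a ih =>
    intro x y hx hy
    rcases hx.eq_or_lt with rfl | hx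
    · right; exact hy
    rcases hy.eq_or_lt with rfl | hy
    · left; exact hx.le
    obtain ⟨c, hxc, hc⟩ := exists_le_covBy_of_lt hx
    obtain ⟨d, hyd, hd⟩ := exists_le_covBy_of_lt hy
    have hcd : c = d := hP c d a hc hd
    subst hcd
    exact ih c hc.lt x y hxc hyd

theorem cover_unique_B7 {P : Type*} [PartialOrder P] [Finite P]
    (hP : ∀ a b c : P, a ⋖ c → b ⋖ c → a = b) {p x y a : P} (hx : p ⋖ x) (hy : p ⋖ y)
    (hxa : x ≤ a) (hya : y ≤ a) : x = y := by
  rcases chain_B7 hP a x y hxa hya with h | h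
  · rcases h.eq_or_lt with h | h
    · exact h
    · exact absurd h (hy.2 hx.1)
  · rcases h.eq_or_lt with h | h
    · exact h.symm
    · exact absurd h (hx.2 hy.1)

theorem exists_cover_B7 {P : Type*} [PartialOrder P] [Finite P] {p a : P} (h : p < a) :
    ∃ x, p ⋖ x ∧ x ≤ a := by
  have : WellFoundedLT P := Finite.to_wellFoundedLT
  exact exists_covBy_le_of_lt h

theorem glue {P Q : Type*} [PartialOrder P] [Finite P] [PartialOrder Q] [Finite Q]
    (hP : ∀ a b c : P, a ⋖ c → b ⋖ c → a = b) (hQ : ∀ a b c : Q, a ⋖ c → b ⋖ c → a = b)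
    (wk : P → P → Bool) (wk' : Q → Q → Bool) (p : P) (q : Q) (e : {x // p ⋖ x} ≃ {y // q ⋖ y})
    (he : ∀ x, wk' q (e x) = wk p x)
    (ψ : ∀ x : {x // p ⋖ x}, ∃ f : {a // (x : P) ≤ a} ≃o {b // (e x : Q) ≤ b},
      ∀ a b : {a // (x : P) ≤ a}, (a : P) ⋖ (b : P) → wk' (f a) (f b) = wk a b) :
    ∃ f : {a // p ≤ a} ≃o {b // q ≤ b},
      ∀ a b : {a // p ≤ a}, (a : P) ⋖ (b : P) → wk' (f a) (f b) = wk a b := by
  classical
  choose g hg using ψ
  -- the map
  have hF : ∀ a : {a // p ≤ a}, ∃ b : {b // q ≤ b}, ((a : P) = p → (b : Q) = q) ∧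
      ∀ (x : {x // p ⋖ x}) (h : (x : P) ≤ a), (b : Q) = (g x ⟨a, h⟩ : Q) := by
    rintro ⟨a, ha⟩
    rcases ha.eq_or_lt with h | h
    · subst h
      refine ⟨⟨q, le_rfl⟩, fun _ => rfl, ?_⟩
      intro x hx
      exact absurd (lt_of_lt_of_le x.2.lt hx) (lt_irrefl _)
    · obtain ⟨x, hx, hxa⟩ := exists_cover_B7 h
      refine ⟨⟨g ⟨x, hx⟩ ⟨a, hxa⟩, ?_⟩, ?_, ?_⟩
      · exact (e ⟨x, hx⟩).2.lt.le.trans (g ⟨x, hx⟩ ⟨a, hxa⟩).2
      · intro h'
        exact absurd h' h.ne'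
      · rintro ⟨y, hy⟩ hya
        have hxy : x = y := cover_unique_B7 hP hx hy hxa hya
        subst hxy
        rfl
  choose F hF1 hF2 using hF
  have hne : ∀ a : {a // p ≤ a}, (a : P) ≠ p → ∃ x : {x // p ⋖ x}, (x : P) ≤ a := by
    rintro ⟨a, ha⟩ h
    obtain ⟨x, hx, hxa⟩ := exists_cover_B7 (lt_of_le_of_ne ha (Ne.symm h))
    exact ⟨⟨x, hx⟩, hxa⟩
  have hle : ∀ a b : {a // p ≤ a}, F a ≤ F b ↔ a ≤ b := by
    intro a b
    by_cases hap : (a : P) = p
    · constructor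
      · intro _
        rw [← Subtype.coe_le_coe, hap]; exact b.2
      · intro _
        rw [← Subtype.coe_le_coe, hF1 a hap]; exact (F b).2
    · obtain ⟨x, hx⟩ := hne a hap
      have hFa : (e x : Q) ≤ F a := by
        rw [hF2 a x hx]; exact (g x ⟨a, hx⟩).2
      by_cases hbp : (b : P) = p
      · constructor
        · intro h
          exfalso
          rw [← Subtype.coe_le_coe, hF1 b hbp] at h
          exact absurd (lt_of_lt_of_le (e x).2.lt (hFa.trans h)) (lt_irrefl _)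
        · intro h
          exfalso
          rw [← Subtype.coe_le_coe, hbp] at h
          exact hap (le_antisymm h a.2)
      · obtain ⟨y, hy⟩ := hne b hbp
        have hFb : (e y : Q) ≤ F b := by
          rw [hF2 b y hy]; exact (g y ⟨b, hy⟩).2
        constructor
        · intro h
          rw [← Subtype.coe_le_coe] at h
          have h1 : (e x : Q) = (e y : Q) :=
            cover_unique_B7 hQ (e x).2 (e y).2 (hFa.trans h) hFb
          have h2 : x = y := e.injective (Subtype.ext h1)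
          subst h2
          rw [hF2 a x hx, hF2 b x hy, Subtype.coe_le_coe] at h
          have h3 := (g x).le_iff_le.1 h
          exact h3
        · intro h
          have hxb : (x : P) ≤ b := hx.trans h
          rw [← Subtype.coe_le_coe, hF2 a x hx, hF2 b x hxb, Subtype.coe_le_coe]
          exact (g x).le_iff_le.2 h
  have hsurj : Function.Surjective (OrderEmbedding.ofMapLEIff F hle) := by
    rintro ⟨b, hb⟩
    rcases hb.eq_or_lt with h | h
    · subst h
      refine ⟨⟨p, le_rfl⟩, ?_⟩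
      exact Subtype.ext (hF1 _ rfl)
    · obtain ⟨y, hy, hyb⟩ := exists_cover_B7 h
      set x := e.symm ⟨y, hy⟩ with hxdef
      have hex : (e x : Q) ≤ b := by
        rw [hxdef, Equiv.apply_symm_apply]; exact hyb
      set a := (g x).symm ⟨b, hex⟩ with hadef
      refine ⟨⟨a, x.2.lt.le.trans a.2⟩, ?_⟩
      apply Subtype.ext
      show (F _ : Q) = b
      rw [hF2 ⟨a, x.2.lt.le.trans a.2⟩ x a.2]
      have : g x ⟨(a : P), a.2⟩ = ⟨b, hex⟩ := by
        rw [hadef]; exact (g x).apply_symm_apply _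
      rw [this]
  refine ⟨RelIso.ofSurjective (OrderEmbedding.ofMapLEIff F hle) hsurj, ?_⟩
  intro a b hab
  show wk' (F a) (F b) = wk a b
  by_cases hap : (a : P) = p
  · have hpb : p ⋖ (b : P) := by rw [hap] at hab; exact hab
    have h1 := hF2 b ⟨b, hpb⟩ le_rfl
    -- bottom goes to bottom
    have h2 : g ⟨b, hpb⟩ ⟨b, le_rfl⟩ = ⟨e ⟨b, hpb⟩, le_rfl⟩ := by
      apply le_antisymm
      · have h3 : (⟨(b : P), le_rfl⟩ : {a // (b : P) ≤ a}) ≤ (g ⟨b, hpb⟩).symm ⟨e ⟨b, hpb⟩, le_rfl⟩ :=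
          ((g ⟨b, hpb⟩).symm ⟨e ⟨b, hpb⟩, le_rfl⟩).2
        have h4 := (g ⟨b, hpb⟩).le_iff_le.2 h3
        rwa [(g ⟨b, hpb⟩).apply_symm_apply] at h4
      · exact (g ⟨b, hpb⟩ ⟨b, le_rfl⟩).2
    rw [h1, h2, hF1 a hap, he]
    simp only [hap]
  · obtain ⟨x, hx⟩ := hne a hap
    have hxb : (x : P) ≤ b := hx.trans hab.lt.le
    rw [hF2 a x hx, hF2 b x hxb]
    exact hg x ⟨a, hx⟩ ⟨b, hxb⟩ hab

end Pool.Agent.H142.RT
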