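import Pool.Agent.H142.RT.Defs

open MvPolynomial

namespace Pool.Agent.H142.RT

theorem res_X_mem {S : Set ℕ} {j : ℕ} (h : j ∈ S) : res S (X j) = X j := by
  simp [res, h]

theorem res_X_notMem {S : Set ℕ} {j : ℕ} (h : j ∉ S) : res S (X j) = 0 := by
  simp [res, h]

theorem aeval_res {R : Type*} [CommRing R] [Algebra ℚ R] (S : Set ℕ) (v : ℕ → R) (a : Pol) :
    aeval v (res S a) = aeval (S.indicator v) a := by
  have : (aeval v).comp (res S) = aeval (S.indicator v) := by
    apply MvPolynomial.algHom_ext
    intro j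
    by_cases h : j ∈ S <;> simp [res, h]
  exact DFunLike.congr_fun this a

theorem res_res (S T : Set ℕ) (a : Pol) : res S (res T a) = res (S ∩ T) a := by
  have : (res S).comp (res T) = res (S ∩ T) := by
    apply MvPolynomial.algHom_ext
    intro j
    by_cases h : j ∈ T <;> by_cases h' : j ∈ S <;> simp [res, h, h']
  exact DFunLike.congr_fun this a

theorem res_of_subset {S T : Set ℕ} (h : S ⊆ T) (a : Pol) : res S (res T a) = res S a := by
  rw [res_res, Set.inter_eq_left.2 h]

theorem res_of_superset {S T : Set ℕ} (h : T ⊆ S) (a : Pol) : res S (res T a) = res T a := by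
  rw [res_res, Set.inter_eq_right.2 h]

theorem res_univ (a : Pol) : res Set.univ a = a := by
  have : res Set.univ = AlgHom.id ℚ Pol := by
    apply MvPolynomial.algHom_ext
    intro j
    simp [res]
  rw [this]; rfl

theorem res_empty (a : Pol) : res ∅ a = C (constantCoeff a) := by
  have h : res ∅ = aeval (fun _ => (0 : Pol)) := by
    apply MvPolynomial.algHom_ext
    intro j
    simp [res]
  rw [h, MvPolynomial.aeval_zero']
  rfl

theorem res_C (S : Set ℕ) (c : ℚ) : res S (C c) = C c := by
  simp [res]

/-- The variable `p` divides a polynomial that vanishes when `p` is set to zero. -/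
theorem X_dvd_sub_res (p : ℕ) (a : Pol) : X p ∣ a - res {p}ᶜ a := by
  induction a using MvPolynomial.induction_on with
  | C c => simp [res_C]
  | add a b ha hb =>
    rw [map_add]
    have : a + b - (res {p}ᶜ a + res {p}ᶜ b) = (a - res {p}ᶜ a) + (b - res {p}ᶜ b) := by ring
    rw [this]; exact dvd_add ha hb
  | mul_X a j ha =>
    rw [map_mul]
    by_cases h : j = p
    · subst h
      rw [res_X_notMem (by simp), mul_zero, sub_zero]
      exact dvd_mul_left _ _
    · rw [res_X_mem (by simpa using h), ← sub_mul]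
      exact ha.mul_right _

theorem X_dvd_of_res_eq_zero {p : ℕ} {a : Pol} (h : res {p}ᶜ a = 0) : X p ∣ a := by
  simpa [h] using X_dvd_sub_res p a

theorem isUnit_iff_exists_C {a : Pol} : IsUnit a ↔ ∃ c : ℚ, c ≠ 0 ∧ a = C c := by
  rw [MvPolynomial.isUnit_iff_eq_C_of_isReduced]
  constructor
  · rintro ⟨r, hr, rfl⟩
    exact ⟨r, hr.ne_zero, rfl⟩
  · rintro ⟨c, hc, rfl⟩
    exact ⟨c, IsUnit.mk0 c hc, rfl⟩

theorem lv_cases (s : Bool) (l : ℕ) : lv s l = l ∨ lv s l = l + 1 := by
  unfold lv; split_ifs <;> simp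

theorem le_lv (s : Bool) (l : ℕ) : l ≤ lv s l := by
  rcases lv_cases s l with h | h <;> omega

theorem lv_le (s : Bool) (l : ℕ) : lv s l ≤ l + 1 := by
  rcases lv_cases s l with h | h <;> omega

theorem lv_succ_eq {s : Bool} {l : ℕ} (h : lv s l = l + 1) : lv s (l + 1) = l + 1 := by
  unfold lv at *
  split_ifs at h with h1
  · rw [if_neg]
    subst h1
    intro h2
    have := decide_eq_decide.1 h2
    rw [Nat.even_add_one] at this
    tauto
  · omega

theorem lv_succ_eq' {s : Bool} {l : ℕ} (h : lv s l = l) : lv s (l + 1) = l + 2 := by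
  unfold lv at *
  by_cases h1 : s = decide (Even l)
  · rw [if_pos h1] at h; omega
  · rw [if_pos]
    by_cases h2 : Even l
    · have h3 : ¬ Even (l + 1) := by rw [Nat.even_add_one]; tauto
      simp only [h2, decide_true, h3, decide_false] at *
      cases s <;> simp_all
    · have h3 : Even (l + 1) := by rw [Nat.even_add_one]; tauto
      simp only [h2, decide_false, h3, decide_true] at *
      cases s <;> simp_all

namespace Pre

variable {n : ℕ} {K : ℕ → Pol}

theorem supp (h : Pre n K) (L : ℕ) : res (Set.Iio L) (K L) = K L := h.coh L L le_rfl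

theorem supp_of_le (h : Pre n K) {L M : ℕ} (hLM : L ≤ M) : res (Set.Iio M) (K L) = K L := by
  rw [← h.supp L, res_of_superset (Set.Iio_subset_Iio hLM)]

theorem zero (h : Pre n K) : K 0 = 0 := by
  have h1 := h.supp 0
  have : Set.Iio 0 = (∅ : Set ℕ) := by ext; simp
  rw [this, res_empty] at h1
  have h2 := h.hom 0
  have h3 : constantCoeff (K 0) = 0 := by
    rw [constantCoeff_eq]
    apply h2.coeff_eq_zero
    have := h.one_le
    simp; omega
  rw [← h1, h3, C_0]

theorem constantCoeff_eq_zero (h : Pre n K) (L : ℕ) : constantCoeff (K L) = 0 := by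
  rw [constantCoeff_eq]
  apply (h.hom L).coeff_eq_zero
  have := h.one_le
  simp; omega

theorem res_ne_zero (h : Pre n K) (S : Finset ℕ) (L : ℕ) (hS : n ≤ (S.filter (· < L)).card) :
    res S (K L) ≠ 0 := by
  intro h0
  have := h.pos S L hS
  rw [← Set.inter_self (S : Set ℕ)] at this
  have h1 : (((S : Set ℕ) ∩ S).indicator (fun _ => (1 : ℚ))) =
      (S : Set ℕ).indicator (fun _ => (1 : ℚ)) := by rw [Set.inter_self]
  rw [h1, ← aeval_res, h0, map_zero] at this
  exact lt_irrefl _ this

theorem ne_zero (h : Pre n K) {L : ℕ} (hL : n ≤ L) : K L ≠ 0 := by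
  intro h0
  have := h.res_ne_zero (Finset.range L) L (by
    rw [Finset.filter_true_of_mem (by intro x hx; simpa using hx)]; simpa using hL)
  rw [h0, map_zero] at this
  exact this rfl

/-- The restriction to `S` vanishes at every level as soon as it vanishes at one level above `S`. -/
theorem res_eq_zero_all (h : Pre n K) {S : Set ℕ} {M : ℕ} (hS : ∀ x ∈ S, x < M) (h0 : res S (K M) = 0)
    (L : ℕ) : res S (K L) = 0 := by
  have hSM : S ⊆ Set.Iio M := hS
  rcases le_total M L with hML | hLM
  · rw [← res_of_subset hSM, h.coh M L hML, h0]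
  · rw [← h.coh L M hLM, res_res, Set.inter_comm, ← res_res, h0, map_zero]

end Pre

theorem node_succ {ι : Type*} [Fintype ι] (s : ι → Bool) (K : ι → ℕ → Pol) (L : ℕ) :
    node s K (L + 1) = node s K L + X L * ∏ i, K i (lv (s i) L) := by
  simp [node, Finset.sum_range_succ]

theorem node_zero {ι : Type*} [Fintype ι] (s : ι → Bool) (K : ι → ℕ → Pol) : node s K 0 = 0 := by
  simp [node]

end Pool.Agent.H142.RT
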