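import Pool.Agent.H142.RT.A1
import Pool.Agent.H142.RT.A2
import Pool.Agent.H142.RT.A3
import Pool.Agent.H142.RT.A5
import Pool.Agent.H142.RT.A6
import Pool.Agent.H142.RT.A7
import Pool.Agent.H142.RT.A8
import Pool.Agent.H142.RT.A9
import Pool.Agent.H142.RT.A10
import Pool.Agent.H142.RT.A11
import Pool.Agent.H142.RT.B3
import Pool.Agent.H142.RT.B4
import Pool.Agent.H142.RT.B5
import Pool.Agent.H142.RT.B6
import Pool.Agent.H142.RT.B7

open MvPolynomial

namespace Pool.Agent.H142.RT

theorem node_pre {ι : Type*} [Fintype ι] (s : ι → Bool) (K : ι → ℕ → Pol) (n : ι → ℕ)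
    (hK : ∀ i, Pre (n i) (K i)) : Pre (1 + ∑ i, n i) (node s K) where
  one_le := by omega
  coh := node_coh s K n hK
  hom := node_hom s K n hK
  canc := node_canc s K n hK
  nonneg := node_nonneg s K n hK
  pos := node_pos s K n hK
  mono := node_mono s K n hK

theorem unit_of_free {n : ℕ} {K : ℕ → Pol} (hK : Pre n K) {p L : ℕ} (hL : n + 2 ≤ L) (hp : p + 3 ≤ L)
    {B : Pol} (hB : B ∣ K L) (S : Finset ℕ) (hS : ∀ x ∈ S, x < p) (h0 : res (S : Set ℕ) B ≠ 0)
    (h1 : res (insert p (S : Set ℕ)) B = res (S : Set ℕ) B)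
    (h2 : res (insert (p + 1) (S : Set ℕ)) B = res (S : Set ℕ) B) : IsUnit B :=
  fac_unit (hK.ne_zero (by omega)) (hK.hom L) hB (descent hK hL hp hB S hS h0 h1 h2)

theorem node_irr {ι : Type*} [Fintype ι] [Nonempty ι] (s : ι → Bool) (K : ι → ℕ → Pol) (n : ι → ℕ)
    (hK : ∀ i, Good (n i) (K i)) : ∃ L₀, ∀ L, L₀ ≤ L → Irreducible (node s K L) := by
  classical
  have hpre : ∀ i, Pre (n i) (K i) := fun i => (hK i).toPre
  have hN := node_pre s K n hpre
  choose a ha using fun i => (hK i).irr
  choose b hb using fun i => nondvd s K n hpre hN i (ha i)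
  obtain ⟨S, hS0, hSne⟩ := exists_S s K n hpre
  set p : ℕ := (1 + ∑ i, n i) + (∑ i, a i) + (∑ i, b i) + (S.sup id + 1) with hpdef
  have hpS : ∀ x ∈ S, x < p := by
    intro x hx
    have : x ≤ S.sup id := Finset.le_sup (f := id) hx
    omega
  have hpa : ∀ i, a i ≤ p := by
    intro i
    have : a i ≤ ∑ i, a i := Finset.single_le_sum (fun _ _ => Nat.zero_le _) (Finset.mem_univ i)
    omega
  have hpb : ∀ i, b i ≤ p := by
    intro i
    have : b i ≤ ∑ i, b i := Finset.single_le_sum (fun _ _ => Nat.zero_le _) (Finset.mem_univ i)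
    omega
  refine ⟨p + 4, fun L hL => ?_⟩
  -- the relation for both factors and both top letters
  have rel : ∀ A B : Pol, node s K L = A * B → ∀ r, p ≤ r → r + 2 ≤ L → ∀ i, lv (s i) r = r + 1 →
      K i (r + 1) ∣ res (Set.Iio (r + 1)) B - res (Set.Iio r) B := by
    intro A B hAB r hr hrL i hi
    exact relation s K n hpre hN i (lv_succ_eq hi) (ha i _ (by have := hpa i; omega))
      (hb i _ (by have := hpb i; omega)) (by omega) hrL hAB
  have top : ∀ A B : Pol, node s K L = A * B → res (S : Set ℕ) B ≠ 0 → IsUnit B := by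
    intro A B hAB hne
    have hdvd : B ∣ node s K L := ⟨A, by rw [hAB, mul_comm]⟩
    have t1 := (top_free s K n hpre hN S hS0 hSne hpS (M := L) (by omega) hAB
      (rel A B hAB p le_rfl (by omega))).2 hne
    have t2 := (top_free s K n hpre hN S hS0 hSne (p := p + 1) (fun x hx => by have := hpS x hx; omega)
      (M := L) (by omega) hAB (rel A B hAB (p + 1) (by omega) (by omega))).2 hne
    exact unit_of_free hN (by omega) (by omega) hdvd S hpS hne t1 t2
  constructor
  · intro hu
    obtain ⟨c, hc, hc'⟩ := isUnit_iff_exists_C.1 hu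
    have := hN.constantCoeff_eq_zero L
    rw [hc', constantCoeff_C] at this
    exact hc this
  · intro A B hAB
    rcases (top_free s K n hpre hN S hS0 hSne hpS (M := L) (by omega) hAB
      (rel A B hAB p le_rfl (by omega))).1 with h | h
    · exact Or.inl (top B A (by rw [hAB, mul_comm]) h)
    · exact Or.inr (top A B hAB h)

theorem node_good {ι : Type*} [Fintype ι] (s : ι → Bool) (K : ι → ℕ → Pol) (n : ι → ℕ)
    (hK : ∀ i, Good (n i) (K i)) : Good (1 + ∑ i, n i) (node s K) where
  toPre := node_pre s K n fun i => (hK i).toPre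
  irr := by
    rcases isEmpty_or_nonempty ι with h | h
    · exact ⟨1, fun L hL => leaf_irr s K hL⟩
    · exact node_irr s K n hK

/-- The alternating signs. -/
def alt (l : ℕ) : Bool := decide (Even l)

section
variable {P : Type*} [PartialOrder P] [Fintype P]

theorem NS_eq_node (hu : ∀ a b c : P, a ⋖ c → b ⋖ c → a = b) (wk : P → P → Bool) (p : P)
    [Fintype {q // p ⋖ q}] :
    (fun L => NS wk alt (X : ℕ → Pol) p L) =
      node (fun q : {q // p ⋖ q} => wk p q) (fun q L => NS wk alt (X : ℕ → Pol) (q : P) L) := by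
  funext L
  induction L with
  | zero => rw [NS_zero, node_zero]
  | succ L ih => rw [NS_succ hu, node_succ, ih]; rfl

theorem NS_good (hu : ∀ a b c : P, a ⋖ c → b ⋖ c → a = b) (wk : P → P → Bool) (p : P) :
    ∃ n, Good n (fun L => NS wk alt (X : ℕ → Pol) p L) := by
  classical
  induction p using WellFoundedGT.induction with
  | ind p ih =>
    have h1 : ∀ q : {q // p ⋖ q}, ∃ n, Good n (fun L => NS wk alt (X : ℕ → Pol) (q : P) L) :=
      fun q => ih q q.2.lt
    choose n hn using h1
    exact ⟨_, by rw [NS_eq_node hu]; exact node_good _ _ n hn⟩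

end

theorem iso_of_assoc {P Q : Type*} [PartialOrder P] [Fintype P] [PartialOrder Q] [Fintype Q]
    (hP : ∀ a b c : P, a ⋖ c → b ⋖ c → a = b) (hQ : ∀ a b c : Q, a ⋖ c → b ⋖ c → a = b)
    (wk : P → P → Bool) (wk' : Q → Q → Bool) (p : P) (q : Q)
    (h : ∀ L, Associated (NS wk alt (X : ℕ → Pol) p L) (NS wk' alt (X : ℕ → Pol) q L)) :
    ∃ f : {a // p ≤ a} ≃o {b // q ≤ b},
      ∀ a b : {a // p ≤ a}, (a : P) ⋖ (b : P) → wk' (f a) (f b) = wk a b := by
  classical
  induction p using WellFoundedGT.induction generalizing q with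
  | ind p ih =>
    choose n hn using fun x : {x // p ⋖ x} => NS_good hP wk (x : P)
    choose m hm using fun y : {y // q ⋖ y} => NS_good hQ wk' (y : Q)
    have h1 : ∀ L, Associated
        (node (fun x : {x // p ⋖ x} => wk p x) (fun x L => NS wk alt (X : ℕ → Pol) (x : P) L) L)
        (node (fun y : {y // q ⋖ y} => wk' q y) (fun y L => NS wk' alt (X : ℕ → Pol) (y : Q) L) L) := by
      intro L
      have e1 := congrFun (NS_eq_node hP wk p) L
      have e2 := congrFun (NS_eq_node hQ wk' q) L
      rw [← e1, ← e2]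
      exact h L
    obtain ⟨e, he, hA⟩ := recover _ _ n hn _ _ m hm h1
    exact glue hP hQ wk wk' p q e he (fun x => ih x x.2.lt (e x) (hA x))

/-- The alternating word as a list. -/
noncomputable def altw (L : ℕ) : List (Bool × Pol) := (List.range L).reverse.map fun l => (alt l, X l)

theorem NL_altw {P : Type*} [PartialOrder P] [Fintype P] (wk : P → P → Bool) (p : P) (L : ℕ) :
    NL wk p (altw L) = NS wk alt (X : ℕ → Pol) p L := by
  have hlen : (altw L).length = L := by simp [altw]
  unfold NL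
  rw [hlen]
  apply NS_congr
  · intro i hi
    simp [sg, altw, List.getD_eq_getElem?_getD, hi]
  · intro i hi
    simp [vl, altw, List.getD_eq_getElem?_getD, hi]

theorem NL_plus {P : Type*} [PartialOrder P] [Fintype P] (wk : P → P → Bool) (p : P) {R : Type*} [CommRing R]
    (w : List (Bool × R)) (hw : ∀ x ∈ w, x.1 = true) :
    NL wk p w = NS wk (fun _ => true) (vl w) p w.length := by
  unfold NL
  apply NS_congr
  · intro i hi
    unfold sg
    rw [List.getD_eq_getElem?_getD, List.getElem?_eq_getElem (by simpa using hi)]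
    apply hw
    simp
  · intro i hi; rfl

/-- Main theorem. -/
theorem main {P Q : Type*} [PartialOrder P] [Fintype P] [PartialOrder Q] [Fintype Q]
    {n m : ℕ} (ω : P ≃ Fin n) (τ : Q ≃ Fin m) (hP : IsRootedTree P) (hQ : IsRootedTree Q)
    (h : enumerator ω = enumerator τ) :
    ∃ f : P ≃o Q, ∀ a b, a ⋖ b → (ω a < ω b ↔ τ (f a) < τ (f b)) := by
  classical
  have huP := unique_lower_cover hP
  have huQ := unique_lower_cover hQ
  obtain ⟨p, hp, hp'⟩ := hP.2
  obtain ⟨q, hq, hq'⟩ := hQ.2
  have hp1 : ∀ x, p ≤ x := by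
    intro x
    obtain ⟨y, hy, hy'⟩ := Set.Finite.exists_le_minimal (s := Set.univ) Set.finite_univ (Set.mem_univ x)
    have : y = p := hp' y (by intro z hz; exact hy'.2 (Set.mem_univ z) hz)
    exact this ▸ hy
  have hq1 : ∀ x, q ≤ x := by
    intro x
    obtain ⟨y, hy, hy'⟩ := Set.Finite.exists_le_minimal (s := Set.univ) Set.finite_univ (Set.mem_univ x)
    have : y = q := hq' y (by intro z hz; exact hy'.2 (Set.mem_univ z) hz)
    exact this ▸ hy
  set wk : P → P → Bool := fun a b => decide (ω a < ω b) with hwk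
  set wk' : Q → Q → Bool := fun a b => decide (τ a < τ b) with hwk'
  have key : ∀ (R : Type) [CommRing R] (w : List (Bool × R)), NL wk p w - NL wk' q w = 0 := by
    intro R _ w
    refine words_zero (fun R _ w => NL wk p w - NL wk' q w) ?_ ?_ ?_ ?_ R w
    · intro R S _ _ φ w
      simp only [NL_map, map_sub]
    · intro R _ u v e
      simp only [NL_insert_zero huP, NL_insert_zero huQ]
    · intro R _ u v x
      have h1 := NL_canc huP wk p u v true x
      have h2 := NL_canc huQ wk' q u v true x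
      simp only [Bool.not_true] at h1 h2
      simp only [h1, h2]
    · intro R _ w hw
      rw [NL_plus wk p w hw, NL_plus wk' q w hw, sub_eq_zero]
      exact plus_of_enumerator ω τ p hp1 q hq1 h (vl w) w.length
  have hL : ∀ L, Associated (NS wk alt (X : ℕ → Pol) p L) (NS wk' alt (X : ℕ → Pol) q L) := by
    intro L
    have := key Pol (altw L)
    rw [sub_eq_zero, NL_altw, NL_altw] at this
    rw [this]
  obtain ⟨f, hf⟩ := iso_of_assoc huP huQ wk wk' p q hL
  let eP : {a // p ≤ a} ≃o P := (OrderIso.setCongr (fun a => p ≤ a) Set.univ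
    (by ext x; exact ⟨fun _ => trivial, fun _ => hp1 x⟩)).trans OrderIso.Set.univ
  let eQ : {a // q ≤ a} ≃o Q := (OrderIso.setCongr (fun a => q ≤ a) Set.univ
    (by ext x; exact ⟨fun _ => trivial, fun _ => hq1 x⟩)).trans OrderIso.Set.univ
  refine ⟨(eP.symm.trans f).trans eQ, ?_⟩
  intro a b hab
  have h1 := hf ⟨a, hp1 a⟩ ⟨b, hp1 b⟩ hab
  have h2 : decide (τ (f ⟨a, hp1 a⟩) < τ (f ⟨b, hp1 b⟩)) = decide (ω a < ω b) := h1
  rw [decide_eq_decide] at h2
  exact h2.symm

end Pool.Agent.H142.RT
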